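import Pool.Agent.MP_cab9bb_co.Sb.St

set_option autoImplicit false

namespace Pool.Agent.MP_cab9bb_co.Sb

section

open Set MeasureTheory

theorem int_lin_Tw (p q c0 c1 : ℝ) :
    ∫ x in p..q, (c0 + c1 * x) = c0 * (q - p) + c1 * (q ^ 2 - p ^ 2) / 2 := by
  rw [intervalIntegral.integral_add (by simp) (Continuous.intervalIntegrable (by fun_prop) _ _),
    intervalIntegral.integral_const_mul, integral_id, intervalIntegral.integral_const, smul_eq_mul]
  ring

/-- a trapezoid -/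
theorem trap_Tw {T : Set (ℝ × ℝ)} {x1 x2 l0 l1 u0 u1 B : ℝ} (h12 : x1 ≤ x2)
    (a1 : l0 + l1 * x1 ≤ u0 + u1 * x1) (a2 : l0 + l1 * x2 ≤ u0 + u1 * x2)
    (h : ∀ z ∈ T, (x1 ≤ z.1 ∧ z.1 ≤ x2) ∧ l0 + l1 * z.1 ≤ z.2 ∧ z.2 ≤ u0 + u1 * z.1)
    (hB : (u0 - l0) * (x2 - x1) + (u1 - l1) * (x2 ^ 2 - x1 ^ 2) / 2 ≤ B) :
    volume T ≤ ENNReal.ofReal B := by
  refine (vol_le h12 (f := fun x => l0 + l1 * x) (g := fun x => u0 + u1 * x) (by fun_prop)
    (by fun_prop) (fun x p q => ?_) h).trans (ENNReal.ofReal_le_ofReal ?_)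
  · rcases le_total l1 u1 with r | r
    · nlinarith [mul_nonneg (sub_nonneg.2 r) (sub_nonneg.2 p)]
    · nlinarith [mul_nonneg (sub_nonneg.2 r) (sub_nonneg.2 q)]
  · rw [← int_lin_Tw] at hB
    refine le_trans (le_of_eq ?_) hB
    congr 1
    funext x
    ring

theorem end_Tw {T : Set (ℝ × ℝ)} {s0 h0 b c p lam : ℝ} (hb : 0 ≤ b) (hc : 0 ≤ c) (hp : 0 ≤ p)
    (l0 : 0 ≤ lam) (h : ∀ z ∈ T, s0 ≤ z.1 ∧ z.1 < s0 + b * lam ∧ h0 ≤ z.2 ∧
      b * (z.2 - h0) ≤ c + p * (z.1 - s0)) :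
    volume T ≤ ENNReal.ofReal (c * lam + p * b * lam ^ 2 / 2) := by
  rcases hb.eq_or_lt with rfl | hb
  · have : T = ∅ := eq_empty_of_forall_notMem fun z hz => by
      have := h z hz
      linarith [this.1, this.2.1]
    rw [this, measure_empty]; exact zero_le
  have n1 : 0 ≤ c / b := by positivity
  have n2 : 0 ≤ p / b * (b * lam) := by positivity
  refine trap_Tw (x1 := s0) (x2 := s0 + b * lam) (l0 := h0) (l1 := 0)
    (u0 := h0 + c / b - p / b * s0) (u1 := p / b) (by nlinarith) (by linarith) (by linarith)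
    (fun z hz => ?_) (le_of_eq (by field_simp; ring))
  obtain ⟨z1, z2, z3, z4⟩ := h z hz
  refine ⟨⟨z1, z2.le⟩, by linarith, ?_⟩
  have : z.2 - h0 ≤ (c + p * (z.1 - s0)) / b := by rw [le_div_iff₀ hb]; linarith
  have e : (c + p * (z.1 - s0)) / b = c / b - p / b * s0 + p / b * z.1 := by ring
  linarith

theorem vol_le_of_Tw {K R : Set (ℝ × ℝ)} (d e : ℝ × ℝ) (h1 : |cr d e| = 1)
    (h : ∀ Z ∈ K, (cr Z d, cr Z e) ∈ R) : volume K ≤ volume R := by
  have := vol_coord d e h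
  rwa [h1, ENNReal.ofReal_one, one_mul] at this

theorem sCap : SCap := by
  intro T s0 h0 a b M c p lam ha hb hM hc hp l0 l1 h
  have v1 := end_Tw (T := T ∩ {z | z.1 < s0 + b * lam}) (s0 := s0) (h0 := h0) hb hc hp l0
    fun z hz => ⟨(h z hz.1).1, hz.2, (h z hz.1).2.2.1, (h z hz.1).2.2.2.2.1⟩
  have v3 : volume (T ∩ {z | s0 + (a + b) - a * lam < z.1}) ≤ _ :=
    (vol_le_of_Tw (R := {z | -(s0 + (a + b)) ≤ z.1 ∧ z.1 < -(s0 + (a + b)) + a * lam ∧ h0 ≤ z.2 ∧
      a * (z.2 - h0) ≤ c + p * (z.1 - -(s0 + (a + b)))}) (0, -1) (-1, 0) (by simp [cr])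
      (fun z hz => by
        obtain ⟨-, z2, z3, -, -, z6⟩ := h z hz.1
        have z7 : s0 + (a + b) - a * lam < z.1 := hz.2
        simp only [cr, mem_ofPred_eq]
        refine ⟨by linarith, by linarith, by linarith, by linarith⟩)).trans
      (end_Tw ha hc hp l0 fun z hz => hz)
  have n0 : 0 ≤ (a + b) * (1 - lam) := mul_nonneg (by linarith) (by linarith)
  have v2 : volume (T ∩ {z | s0 + b * lam ≤ z.1 ∧ z.1 ≤ s0 + (a + b) - a * lam}) ≤
      ENNReal.ofReal (M * (a + b) * (1 - lam)) :=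
    trap_Tw (x1 := s0 + b * lam) (x2 := s0 + (a + b) - a * lam) (l0 := h0) (l1 := 0)
      (u0 := h0 + M) (u1 := 0) (by linarith) (by linarith) (by linarith)
      (fun z hz => ⟨hz.2, by linarith [(h z hz.1).2.2.1], by linarith [(h z hz.1).2.2.2.1]⟩)
      (le_of_eq (by ring))
  have hsub : T ⊆ T ∩ {z | z.1 < s0 + b * lam} ∪ (T ∩ {z | s0 + (a + b) - a * lam < z.1} ∪
      T ∩ {z | s0 + b * lam ≤ z.1 ∧ z.1 ≤ s0 + (a + b) - a * lam}) := fun z hz => by
    rcases lt_or_ge z.1 (s0 + b * lam) with r | r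
    · exact Or.inl ⟨hz, r⟩
    rcases lt_or_ge (s0 + (a + b) - a * lam) z.1 with r' | r'
    · exact Or.inr (Or.inl ⟨hz, r'⟩)
    · exact Or.inr (Or.inr ⟨hz, r, r'⟩)
  refine (measure_mono hsub).trans ((measure_union_le _ _).trans ((add_le_add v1
    ((measure_union_le _ _).trans (add_le_add v3 v2))).trans (le_of_eq ?_)))
  have n1 : 0 ≤ M * (a + b) * (1 - lam) := by rw [mul_assoc]; exact mul_nonneg hM n0
  rw [← ENNReal.ofReal_add (by positivity) n1, ← ENNReal.ofReal_add (by positivity)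
    (add_nonneg (by positivity) n1)]
  congr 1
  ring

/-- Two translates in adapted coordinates. -/
structure Tw (K C : Set (ℝ × ℝ)) : Prop where
  cl : IsClosed K
  cv : Convex ℝ K
  sy : ∀ x ∈ K, -x ∈ K
  k1 : ((1, 1) : ℝ × ℝ) ∈ K
  k2 : ((-1, 1) : ℝ × ℝ) ∈ K
  mx : ∀ x y : ℝ, (x - 1, y) ∈ K → (x - -1, y) ∈ K → y ≤ 1
  cC : Convex ℝ C
  cov : ∀ z ∈ C, (z.1 - 1, z.2) ∈ K ∨ (z.1 - -1, z.2) ∈ K

variable {K C : Set (ℝ × ℝ)} {ε : ℝ}

theorem neg_in_Tw (hs : ∀ x ∈ K, -x ∈ K) {z : ℝ × ℝ} (h : ((-z).1 - ε, (-z).2) ∈ K) :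
    (z.1 - -ε, z.2) ∈ K := by
  have := hs _ h
  convert this using 1
  ext
  · simp only [Prod.fst_neg]; ring
  · simp

theorem Tw.neg (h : Tw K C) : Tw K (-C) :=
  ⟨h.cl, h.cv, h.sy, h.k1, h.k2, h.mx, h.cC.neg, fun z hz => by
    rcases h.cov (-z) hz with r | r
    · exact Or.inr (neg_in_Tw h.sy r)
    · exact Or.inl (by simpa using neg_in_Tw h.sy r)⟩

theorem hor_Tw (hv : Convex ℝ K) {y x1 x2 x : ℝ} (h1 : (x1, y) ∈ K) (h2 : (x2, y) ∈ K)
    (a1 : x1 ≤ x) (a2 : x ≤ x2) : (x, y) ∈ K :=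
  vert_mem (S := Prod.swap ⁻¹' K) (fun _ ha _ hb _ _ hs ht hst => hv ha hb hs ht hst) h1 h2 a1 a2

theorem Tw.corner (h : Tw K C) (hε : ε = 1 ∨ ε = -1) {y : ℝ} (y0 : -1 ≤ y) (y1 : y ≤ 1) :
    (ε, y) ∈ K := by
  rcases hε with rfl | rfl
  · exact vert_mem h.cv (by simpa using h.sy _ h.k2) h.k1 y0 y1
  · exact vert_mem h.cv (h.sy _ h.k1) h.k2 y0 y1

theorem Tw.mid (h : Tw K C) (hε : ε = 1 ∨ ε = -1) {z : ℝ × ℝ} (hz : z ∈ C) (y0 : -1 ≤ z.2)
    (y1 : z.2 ≤ 1) (hx : 0 ≤ ε * z.1) : (z.1 - ε, z.2) ∈ K := by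
  rcases hε with rfl | rfl
  · exact (h.cov z hz).elim id fun r =>
      hor_Tw h.cv (h.corner (Or.inr rfl) y0 y1) r (by linarith) (by linarith)
  · exact (h.cov z hz).elim (fun r =>
      hor_Tw h.cv r (h.corner (Or.inl rfl) y0 y1) (by linarith) (by linarith)) id

theorem Tw.up (h : Tw K C) :
    (∀ z ∈ C, 1 < z.2 → (z.1 - 1, z.2) ∈ K) ∨ ∀ z ∈ C, 1 < z.2 → (z.1 - -1, z.2) ∈ K := by
  have hc : Convex ℝ (C ∩ {z : ℝ × ℝ | 1 < z.2}) :=
    h.cC.inter (convex_halfSpace_gt (LinearMap.snd ℝ ℝ ℝ).isLinear 1)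
  have := isPreconnected_iff_subset_of_disjoint_closed.1 hc.isPreconnected
    {z : ℝ × ℝ | (z.1 - 1, z.2) ∈ K} {z : ℝ × ℝ | (z.1 - -1, z.2) ∈ K}
    (h.cl.preimage (by fun_prop)) (h.cl.preimage (by fun_prop)) (fun z hz => h.cov z hz.1)
    (eq_empty_of_forall_notMem fun z hz => absurd (h.mx _ _ hz.2.1 hz.2.2) (not_le.2 hz.1.2))
  exact this.imp (fun r z hz p => r ⟨hz, p⟩) fun r z hz p => r ⟨hz, p⟩

theorem Tw.cross (h : Tw K C) (hε : ε = 1 ∨ ε = -1)
    (hU : ∀ z ∈ C, 1 < z.2 → (z.1 - ε, z.2) ∈ K) {w z : ℝ × ℝ} (hw : w ∈ C) (w1 : 1 < w.2)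
    (hz : z ∈ C) (z1 : z.2 = 1) : 0 ≤ ε * z.1 := by
  by_contra hn
  push Not at hn
  have hd : 0 < 2 - ε * z.1 := by linarith
  obtain ⟨s, hs⟩ : ∃ s, s = -(ε * z.1) / (2 - ε * z.1) := ⟨_, rfl⟩
  have s0 : 0 < s := hs ▸ div_pos (by linarith) hd
  have s1 : s ≤ 1 := hs ▸ (div_le_one hd).2 (by linarith)
  have s2 : s * (2 - ε * z.1) = -(ε * z.1) := by rw [hs]; field_simp
  have y1 : 1 < z.2 + s * (w.2 - z.2) := by rw [z1]; nlinarith
  have p1 := hU _ (seg_mem h.cC hz hw s0.le s1) y1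
  have p2 := seg_mem h.cv (h.corner hε (y := z.2) (by linarith) z1.le) (hU w hw w1) s0.le s1
  simp only at p1 p2
  rcases hε with rfl | rfl
  · rw [show 1 + s * (w.1 - 1 - 1) = z.1 + s * (w.1 - z.1) - -1 by linarith] at p2
    exact absurd (h.mx _ _ p1 p2) (not_le.2 y1)
  · rw [show -1 + s * (w.1 - -1 - -1) = z.1 + s * (w.1 - z.1) - 1 by linarith] at p2
    exact absurd (h.mx _ _ p2 p1) (not_le.2 y1)

theorem level_Tw (hC : Convex ℝ C) {z w : ℝ × ℝ} (hz : z ∈ C) (hw : w ∈ C) {y : ℝ} (a : z.2 < y)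
    (b : y < w.2) : ∃ θ : ℝ, 0 < θ ∧ θ < 1 ∧ ((1 - θ) * z.1 + θ * w.1, y) ∈ C := by
  have hd : 0 < w.2 - z.2 := by linarith
  have t0 : 0 < (y - z.2) / (w.2 - z.2) := div_pos (by linarith) hd
  have t1 : (y - z.2) / (w.2 - z.2) < 1 := (div_lt_one hd).2 (by linarith)
  refine ⟨_, t0, t1, ?_⟩
  convert seg_mem hC hz hw t0.le t1.le using 2
  · ring
  · field_simp; ring

theorem Tw.side (h : Tw K C) (hε : ε = 1 ∨ ε = -1)
    (hU : ∀ z ∈ C, 1 < z.2 → (z.1 - ε, z.2) ∈ K) {z : ℝ × ℝ} (hz : z ∈ C)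
    (hn : (z.1 - ε, z.2) ∉ K) {w : ℝ × ℝ} (hw : w ∈ C) (w1 : 1 < w.2) : 0 ≤ ε * w.1 := by
  obtain ⟨u, hu, u1, u2⟩ : ∃ u ∈ C, u.2 < 1 ∧ ε * u.1 ≤ 0 := by
    have z1 : z.2 ≤ 1 := not_lt.1 fun r => hn (hU z hz r)
    rcases le_or_gt (-1) z.2 with r | r
    · have z2 : ε * z.1 < 0 := not_le.1 fun q => hn (h.mid hε hz r z1 q)
      exact ⟨z, hz, lt_of_le_of_ne z1 fun q => absurd (h.cross hε hU hw w1 hz q) (not_le.2 z2),
        z2.le⟩
    · have hz' : -z ∈ -C := by simpa using hz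
      have z3 : 1 < (-z).2 := by simp only [Prod.snd_neg]; linarith
      have hL : ∀ z ∈ -C, 1 < z.2 → (z.1 - ε, z.2) ∈ K := by
        rcases h.neg.up with q | q <;> rcases hε with rfl | rfl
        · exact q
        · exact absurd (neg_in_Tw h.sy (q _ hz' z3)) hn
        · exact absurd (by simpa using neg_in_Tw h.sy (q _ hz' z3)) hn
        · exact q
      obtain ⟨θ, -, -, m⟩ := level_Tw h.cC hz hw r (by linarith)
      have := h.neg.cross hε hL hz' z3 (z := -((1 - θ) * z.1 + θ * w.1, (-1 : ℝ)))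
        (by simpa using m) (by simp)
      exact ⟨_, m, by norm_num, by simp only [Prod.fst_neg] at this ⊢; linarith⟩
  obtain ⟨θ, t0, t1, m⟩ := level_Tw h.cC hu hw u1 w1
  have := h.cross hε hU hw w1 m rfl
  simp only at this
  refine nonneg_of_mul_nonneg_right (a := θ) ?_ t0
  nlinarith [mul_nonneg (sub_nonneg.2 t1.le) (neg_nonneg.2 u2)]

/-- `C` lies in neither translate -/
def Nz (K C : Set (ℝ × ℝ)) : Prop :=
  (∃ z ∈ C, (z.1 - 1, z.2) ∉ K) ∧ ∃ z ∈ C, (z.1 - -1, z.2) ∉ K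

theorem Nz.neg (h : Tw K C) (n : Nz K C) : Nz K (-C) := by
  obtain ⟨⟨z, hz, n1⟩, w, hw, n2⟩ := n
  exact ⟨⟨-w, by simpa using hw, fun r => n2 (neg_in_Tw h.sy r)⟩,
    -z, by simpa using hz, fun r => n1 (by simpa using neg_in_Tw h.sy r)⟩

theorem Tw.top (h : Tw K C) (n : Nz K C) : ∃ ε : ℝ, (ε = 1 ∨ ε = -1) ∧
    ∀ z ∈ C, 1 < z.2 → (z.1 - ε, z.2) ∈ K ∧ 0 ≤ ε * z.1 := by
  obtain ⟨⟨z, hz, n1⟩, w, hw, n2⟩ := n
  rcases h.up with q | q
  · exact ⟨1, Or.inl rfl, fun u hu u1 => ⟨q u hu u1, h.side (Or.inl rfl) q hz n1 hu u1⟩⟩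
  · exact ⟨-1, Or.inr rfl, fun u hu u1 => ⟨q u hu u1, h.side (Or.inr rfl) q hw n2 hu u1⟩⟩

theorem Tw.half (h : Tw K C) (n : Nz K C) (hε : ε = 1 ∨ ε = -1) {z : ℝ × ℝ} (hz : z ∈ C)
    (hx : 0 < ε * z.1) : (z.1 - ε, z.2) ∈ K := by
  rcases lt_or_ge 1 z.2 with r | r
  · obtain ⟨δ, hδ, q⟩ := h.top n
    obtain ⟨q1, q2⟩ := q z hz r
    rcases hε with rfl | rfl <;> rcases hδ with rfl | rfl
    exacts [q1, by linarith, by linarith, q1]
  rcases le_or_gt (-1) z.2 with r' | r'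
  · exact h.mid hε hz r' r hx.le
  · obtain ⟨δ, hδ, q⟩ := h.neg.top (n.neg h)
    obtain ⟨q1, q2⟩ := q (-z) (by simpa using hz) (by simp only [Prod.snd_neg]; linarith)
    have q3 := neg_in_Tw h.sy q1
    simp only [Prod.fst_neg] at q2
    rcases hε with rfl | rfl <;> rcases hδ with rfl | rfl
    exacts [by linarith, by simpa using q3, q3, by linarith]

theorem Tw.slope (h : Tw K C) (n : Nz K C) {l : ℝ × ℝ} (hl : l ∈ C) (l0 : l.1 < 0) {r : ℝ × ℝ}
    (hr : r ∈ C) (r0 : 0 < r.1) : ∃ σ : ℝ, ∀ z ∈ C, z.1 ≠ 0 → z.2 ≤ 1 + σ * z.1 := by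
  obtain ⟨δ, hδ, q⟩ := h.top n
  have pair : ∀ l ∈ C, l.1 < 0 → ∀ r ∈ C, 0 < r.1 → (r.2 - 1) / r.1 ≤ (1 - l.2) / -l.1 := by
    intro l hl l0 r hr r0
    rw [div_le_div_iff₀ r0 (by linarith)]
    by_contra hn
    push Not at hn
    have hd : 0 < r.1 - l.1 := by linarith
    have t0 : 0 ≤ -l.1 / (r.1 - l.1) := div_nonneg (by linarith) hd.le
    have t1 : -l.1 / (r.1 - l.1) ≤ 1 := (div_le_one hd).2 (by linarith)
    have m := seg_mem h.cC hl hr t0 t1
    rw [div_mul_cancel₀ _ hd.ne', add_neg_cancel] at m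
    obtain ⟨y, hy⟩ : ∃ y, y = l.2 + -l.1 / (r.1 - l.1) * (r.2 - l.2) := ⟨_, rfl⟩
    rw [← hy] at m
    have y1 : 1 < y := by
      have : (y - 1) * (r.1 - l.1) = (r.2 - 1) * -l.1 - (1 - l.2) * r.1 := by
        rw [hy]; field_simp; ring
      nlinarith
    obtain ⟨u, hu, u0⟩ : ∃ u ∈ C, δ * u.1 < 0 := by
      rcases hδ with rfl | rfl
      exacts [⟨l, hl, by linarith⟩, ⟨r, hr, by linarith⟩]
    have u1 : u.2 ≤ 1 := not_lt.1 fun p => absurd (q u hu p).2 (not_le.2 u0)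
    obtain ⟨θ, -, t1, m'⟩ := level_Tw h.cC hu m (y := (1 + y) / 2) (by linarith)
      (by simp only; linarith)
    have := (q _ m' (by simp only; linarith)).2
    simp only at this
    nlinarith [mul_pos (sub_pos.2 t1) (neg_pos.2 u0)]
  let A : Set ℝ := {s | ∃ z ∈ C, 0 < z.1 ∧ s = (z.2 - 1) / z.1}
  have bd : ∀ l ∈ C, l.1 < 0 → (1 - l.2) / -l.1 ∈ upperBounds A := by
    rintro l hl l0 _ ⟨z, hz, z0, rfl⟩
    exact pair l hl l0 z hz z0
  refine ⟨sSup A, fun z hz z0 => ?_⟩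
  rcases lt_or_gt_of_ne z0 with p | p
  · have := csSup_le (s := A) ⟨_, r, hr, r0, rfl⟩ (bd z hz p)
    rw [le_div_iff₀ (by linarith)] at this
    linarith
  · have := le_csSup ⟨_, bd l hl l0⟩ (show (z.2 - 1) / z.1 ∈ A from ⟨z, hz, p, rfl⟩)
    rw [div_le_iff₀ p] at this
    linarith

/-- the part of the right translate between two lines -/
def Rg (K : Set (ℝ × ℝ)) (a b : ℝ) : Set (ℝ × ℝ) :=
  {z | 0 < z.1 ∧ (z.1 - 1, z.2) ∈ K ∧ -1 + a * z.1 ≤ z.2 ∧ z.2 ≤ 1 + b * z.1}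

theorem Rg_meas (h : IsClosed K) (a b : ℝ) : MeasurableSet (Rg K a b) :=
  (isOpen_lt (f := fun _ => (0 : ℝ)) (g := fun z : ℝ × ℝ => z.1) (by fun_prop)
    (by fun_prop)).measurableSet.inter
    ((h.preimage (f := fun z : ℝ × ℝ => (z.1 - 1, z.2)) (by fun_prop)).inter
      ((isClosed_le (f := fun z : ℝ × ℝ => -1 + a * z.1) (g := fun z => z.2) (by fun_prop)
        (by fun_prop)).inter (isClosed_le (f := fun z : ℝ × ℝ => z.2)
          (g := fun z => 1 + b * z.1) (by fun_prop) (by fun_prop)))).measurableSet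

theorem vol_in_Tw (K : Set (ℝ × ℝ)) (ε : ℝ) :
    volume {z : ℝ × ℝ | (z.1 - ε, z.2) ∈ K} = volume K := by
  rw [← measure_preimage_add_right volume ((-ε, 0) : ℝ × ℝ) K]
  congr 1
  ext z
  simp only [mem_ofPred_eq, mem_preimage]
  rw [show z + (-ε, 0) = (z.1 - ε, z.2) by ext <;> simp [sub_eq_add_neg]]

section main

variable {q t e V : ℝ} (h : Tw K C) (hq : ∀ a ∈ K, ∀ b ∈ K, cr a b ≤ q)
  (ht : ∀ a ∈ K, ∀ b ∈ K, ∀ c ∈ K, cr (b - a) (c - a) ≤ 2 * t)
include h hq ht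

theorem Tw.bounds {z : ℝ × ℝ} (hz : (z.1 - 1, z.2) ∈ K) :
    z.1 ≤ t ∧ z.1 + z.2 ≤ q + 1 ∧ z.1 - z.2 ≤ q + 1 := by
  have a1 := ht _ h.k2 _ (h.sy _ h.k1) _ hz
  have a2 := hq _ hz _ h.k2
  have a3 := hq _ (h.sy _ h.k1) _ hz
  simp only [cr, Prod.fst_sub, Prod.snd_sub, Prod.fst_neg, Prod.snd_neg] at a1 a2 a3
  exact ⟨by linarith, by linarith, by linarith⟩

theorem Tw.strip (e0 : 0 ≤ e) (e1 : e ≤ 1) (hte : t = q * (1 + e / 2)) (σ : ℝ) :
    volume (Rg K σ σ) ≤ ENNReal.ofReal (2 * t - q * e ^ 2 / 2) := by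
  have q2 : 2 ≤ q := by
    have := hq _ h.k1 _ h.k2
    simp only [cr] at this
    linarith
  obtain ⟨b, b0, b2, b3, b4⟩ : ∃ b : ℝ, 0 ≤ b ∧ b ≤ 2 ∧ (b = 0 ∨ b ≤ 1 + σ) ∧
      (2 - b = 0 ∨ 2 - b ≤ 1 - σ) := by
    rcases le_total σ (-1) with r | r
    · exact ⟨0, le_rfl, by norm_num, Or.inl rfl, Or.inr (by linarith)⟩
    rcases le_total σ 1 with r' | r'
    · exact ⟨1 + σ, by linarith, by linarith, Or.inr le_rfl, Or.inr (by linarith)⟩
    · exact ⟨2, by norm_num, le_rfl, Or.inr (by linarith), Or.inl (by norm_num)⟩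
  refine (vol_le_of_Tw (R := (fun Z => (cr Z (1, σ), cr Z (0, 1))) '' Rg K σ σ) (1, σ) (0, 1)
    (by simp [cr]) fun Z hZ => ⟨Z, hZ, rfl⟩).trans ((sCap _ (-1) 0 (2 - b) b t q 1 e (by linarith)
      b0 (by nlinarith) (by linarith) zero_le_one e0 e1 ?_).trans (ENNReal.ofReal_le_ofReal ?_))
  · rintro _ ⟨z, ⟨z0, z1, z2, z3⟩, rfl⟩
    obtain ⟨a1, a2, a3⟩ := h.bounds hq ht z1
    simp only [cr]
    refine ⟨by linarith, by linarith, by linarith, by linarith, ?_, ?_⟩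
    · rcases b3 with rfl | r
      · linarith
      · nlinarith [mul_le_mul_of_nonneg_right r z0.le]
    · rcases b4 with r | r
      · rw [r]; linarith
      · nlinarith [mul_le_mul_of_nonneg_right r z0.le]
  · rw [hte]
    nlinarith [mul_nonneg (sub_nonneg.2 q2) (sq_nonneg e)]

theorem Tw.both (e0 : 0 ≤ e) (e1 : e ≤ 1) (hte : t = q * (1 + e / 2))
    (hV : volume K ≤ ENNReal.ofReal (3 * t - q * e ^ 2)) {a b : ℝ} (hab : b ≤ a) :
    volume (Rg K b a) + volume (Rg K a b) ≤ ENNReal.ofReal (4 * t - q * e ^ 2) := by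
  have q2 : 2 ≤ q := by
    have := hq _ h.k1 _ h.k2
    simp only [cr] at this
    linarith
  have n1 : q * e ^ 2 ≤ t := by rw [hte]; nlinarith [mul_nonneg e0 (sub_nonneg.2 e1)]
  have t0 : 0 ≤ t := by rw [hte]; positivity
  by_cases hg : Rg K b a ⊆ Rg K a a ∪ Rg K b b
  · have hs : Rg K a b ⊆ Rg K a a ∩ Rg K b b := fun z ⟨z0, z1, z2, z3⟩ => by
      have := mul_le_mul_of_nonneg_right hab z0.le
      exact ⟨⟨z0, z1, z2, by linarith⟩, z0, z1, by linarith, z3⟩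
    refine (add_le_add (measure_mono hg) (measure_mono hs)).trans ?_
    rw [measure_union_add_inter _ (Rg_meas h.cl b b)]
    refine (add_le_add (h.strip hq ht e0 e1 hte a) (h.strip hq ht e0 e1 hte b)).trans (le_of_eq ?_)
    rw [← ENNReal.ofReal_add (by linarith) (by linarith)]
    congr 1
    ring
  · obtain ⟨w, ⟨w0, w1, w2, w3⟩, hw⟩ := not_subset.1 hg
    have g1 : w.2 < -1 + a * w.1 := not_le.1 fun r => hw (Or.inl ⟨w0, w1, r, w3⟩)
    have g2 : 1 + b * w.1 < w.2 := not_le.1 fun r => hw (Or.inr ⟨w0, w1, w2, r⟩)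
    have g3 := (h.bounds hq ht w1).1
    have k0 : 0 < a - b := by nlinarith
    obtain ⟨x, hx⟩ : ∃ x, x = 2 / (a - b) := ⟨_, rfl⟩
    have x0 : 0 < x := hx ▸ by positivity
    have x1 : (a - b) * x = 2 := by rw [hx]; field_simp
    have x2 : x ≤ t := by nlinarith
    have v1 : volume (Rg K a b) ≤ ENNReal.ofReal t :=
      trap_Tw (x1 := 0) (x2 := x) (l0 := -1) (l1 := a) (u0 := 1) (u1 := b) x0.le (by linarith)
        (by linarith) (fun z ⟨z0, _, z2, z3⟩ => ⟨⟨z0.le, by nlinarith⟩, z2, z3⟩) (by nlinarith)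
    have v2 : volume (Rg K b a) ≤ volume K :=
      (measure_mono fun z hz => hz.2.1).trans (vol_in_Tw K 1).le
    refine (add_le_add (v2.trans hV) v1).trans (le_of_eq ?_)
    rw [← ENNReal.ofReal_add (by linarith) t0]
    congr 1
    ring

theorem Tw.main (e0 : 0 ≤ e) (e1 : e ≤ 1) (hte : t = q * (1 + e / 2))
    (hV : volume K ≤ ENNReal.ofReal (3 * t - q * e ^ 2)) :
    volume C ≤ ENNReal.ofReal (4 * t - q * e ^ 2) := by
  have t0 : 0 ≤ t := by
    have := ht _ h.k1 _ h.k1 _ h.k1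
    simp only [cr, sub_self, Prod.fst_zero, Prod.snd_zero] at this
    linarith
  have z0 : volume {z : ℝ × ℝ | z.1 = 0} = 0 := vol_flat fun a ha b hb => by
    simp only [cr, show a.1 = 0 from ha, show b.1 = 0 from hb]; ring
  have one : ∀ ε : ℝ, (∀ z ∈ C, z.1 ≠ 0 → (z.1 - ε, z.2) ∈ K) →
      volume C ≤ ENNReal.ofReal (4 * t - q * e ^ 2) := fun ε hε => by
    have hs : C ⊆ {z : ℝ × ℝ | (z.1 - ε, z.2) ∈ K} ∪ {z : ℝ × ℝ | z.1 = 0} := fun z hz =>
      (eq_or_ne z.1 0).elim Or.inr fun r => Or.inl (hε z hz r)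
    refine (measure_mono hs).trans ((measure_union_le _ _).trans ?_)
    rw [z0, add_zero, vol_in_Tw]
    exact hV.trans (ENNReal.ofReal_le_ofReal (by linarith))
  by_cases n : Nz K C
  swap
  · rw [Nz, not_and_or] at n
    push Not at n
    exact n.elim (fun r => one 1 fun z hz _ => r z hz) fun r => one (-1) fun z hz _ => r z hz
  by_cases hl : ∃ l ∈ C, l.1 < 0
  swap
  · push Not at hl
    exact one 1 fun z hz r => h.half n (Or.inl rfl) hz
      (by linarith [lt_of_le_of_ne (hl z hz) r.symm])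
  by_cases hr : ∃ r ∈ C, 0 < r.1
  swap
  · push Not at hr
    exact one (-1) fun z hz r => h.half n (Or.inr rfl) hz
      (by linarith [lt_of_le_of_ne (hr z hz) r])
  obtain ⟨l, hl, l0⟩ := hl
  obtain ⟨r, hr, r0⟩ := hr
  obtain ⟨a, ha⟩ := h.slope n hl l0 hr r0
  obtain ⟨b, hb⟩ := h.neg.slope (n.neg h) (l := -r) (by simpa using hr) (by simpa using r0)
    (r := -l) (by simpa using hl) (by simpa using l0)
  have hb' : ∀ z ∈ C, z.1 ≠ 0 → -1 + b * z.1 ≤ z.2 := fun z hz r => by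
    have := hb (-z) (by simpa using hz) (by simpa using r)
    simp only [Prod.fst_neg, Prod.snd_neg] at this
    linarith
  have v1 : volume (C ∩ {z | z.1 < 0}) ≤ volume (Rg K a b) :=
    vol_le_of_Tw (0, -1) (1, 0) (by simp [cr]) fun z hz => by
      have p : z.1 < 0 := hz.2
      have p1 := h.sy _ (h.half n (Or.inr rfl) hz.1 (by linarith))
      have p2 := ha z hz.1 p.ne
      have p3 := hb' z hz.1 p.ne
      simp only [cr, Rg, mem_ofPred_eq]
      refine ⟨by linarith, ?_, by linarith, by linarith⟩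
      convert p1 using 1
      ext
      · simp only [Prod.fst_neg]; ring
      · simp
  have hs : C ⊆ Rg K b a ∪ C ∩ {z | z.1 < 0} ∪ {z : ℝ × ℝ | z.1 = 0} := fun z hz => by
    rcases lt_trichotomy z.1 0 with p | p | p
    · exact Or.inl (Or.inr ⟨hz, p⟩)
    · exact Or.inr p
    · exact Or.inl (Or.inl ⟨p, h.half n (Or.inl rfl) hz (by linarith), hb' z hz p.ne',
        ha z hz p.ne'⟩)
  refine (measure_mono hs).trans ((measure_union_le _ _).trans ?_)
  rw [z0, add_zero]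
  refine (measure_union_le _ _).trans ((add_le_add le_rfl v1).trans ?_)
  rcases le_total b a with p | p
  · exact h.both hq ht e0 e1 hte hV p
  · rw [add_comm]
    exact h.both hq ht e0 e1 hte hV p

end main

theorem vol_tr_Tw (S : Set (ℝ × ℝ)) (v : ℝ × ℝ) : volume {z | z - v ∈ S} = volume S := by
  rw [← measure_preimage_add_right volume (-v) S]
  simp only [← sub_eq_add_neg]
  rfl

theorem flat_Tw (hc : IsClosed K) {v : ℝ × ℝ} (hC : Convex ℝ C)
    (cov : ∀ x ∈ C, x - v ∈ K ∨ x - -v ∈ K) (s : ℝ)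
    (h : ∀ x, x - v ∈ K → x - -v ∈ K → s * cr v x ≤ 0) :
    volume (C ∩ {x | 0 < s * cr v x}) ≤ volume (K ∩ {x | 0 < s * cr v x}) := by
  have hv : Convex ℝ (C ∩ {x | 0 < s * cr v x}) := hC.inter (convex_halfSpace_gt
    (f := fun x => s * cr v x) ⟨fun x y => by simp [cr]; ring, fun c x => by simp [cr]; ring⟩ 0)
  rcases isPreconnected_iff_subset_of_disjoint_closed.1 hv.isPreconnected {x | x - v ∈ K}
    {x | x - -v ∈ K} (hc.preimage (by fun_prop)) (hc.preimage (by fun_prop))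
    (fun x hx => cov x hx.1) (eq_empty_of_forall_notMem fun x hx =>
      absurd (h x hx.2.1 hx.2.2) (not_le.2 hx.1.2)) with r | r
  · rw [← vol_tr_Tw (K ∩ _) v]
    refine measure_mono fun x hx => ⟨r hx, ?_⟩
    have : 0 < s * cr v x := hx.2
    simp only [cr, mem_ofPred_eq, Prod.fst_sub, Prod.snd_sub] at this ⊢
    linarith
  · rw [← vol_tr_Tw (K ∩ _) (-v)]
    refine measure_mono fun x hx => ⟨r hx, ?_⟩
    have : 0 < s * cr v x := hx.2
    simp only [cr, mem_ofPred_eq, Prod.fst_sub, Prod.snd_sub, Prod.fst_neg, Prod.snd_neg] at this ⊢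
    linarith

theorem two0_Tw {V e : ℝ} (N : Nm K V e) (hV : V ≤ 3 * (2 + e) - 2 * e ^ 2) (hC : Convex ℝ C)
    {v : ℝ × ℝ} (cov : ∀ x ∈ C, x - v ∈ K ∨ x - -v ∈ K) :
    volume C ≤ ENNReal.ofReal (4 * (2 + e) - 2 * e ^ 2) := by
  have hK : volume K ≤ ENNReal.ofReal (4 * (2 + e) - 2 * e ^ 2) :=
    N.hV.le.trans (ENNReal.ofReal_le_ofReal (by linarith [N.e0]))
  have sy : ∀ x, x - v ∈ K → -x - -v ∈ K := fun x hx => by
    convert N.sy _ hx using 1; abel
  have sy' : ∀ x, x - -v ∈ K → -x - v ∈ K := fun x hx => by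
    convert N.sy _ hx using 1; abel
  by_cases h0 : ∀ x, x - v ∈ K → x - -v ∈ K → cr v x ≤ 0
  · by_cases hv : v = 0
    · subst hv
      exact (measure_mono fun x hx => by simpa using cov x hx).trans hK
    have z0 : volume {x : ℝ × ℝ | cr v x = 0} = 0 := vol_flat fun a ha b hb => by
      have a1 : cr v a = 0 := ha
      have b1 : cr v b = 0 := hb
      by_contra hn
      apply hv
      have := cramer a b v hn
      rw [b1, show cr a v = -cr v a by simp only [cr]; ring, a1] at this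
      simpa using this
    have v1 := flat_Tw N.cp.isClosed hC cov 1 fun x p q => by linarith [h0 x p q]
    have v2 := flat_Tw N.cp.isClosed hC cov (-1) fun x p q => by
      have := h0 (-x) (sy' x q) (sy x p)
      simp only [cr, Prod.fst_neg, Prod.snd_neg] at this ⊢
      linarith
    have hs : C ⊆ C ∩ {x | 0 < 1 * cr v x} ∪ C ∩ {x | 0 < -1 * cr v x} ∪ {x | cr v x = 0} :=
      fun x hx => by
        rcases lt_trichotomy (cr v x) 0 with p | p | p
        · exact Or.inl (Or.inr ⟨hx, show 0 < -1 * cr v x by linarith⟩)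
        · exact Or.inr p
        · exact Or.inl (Or.inl ⟨hx, show 0 < 1 * cr v x by linarith⟩)
    refine (measure_mono hs).trans ((measure_union_le _ _).trans ?_)
    rw [z0, add_zero]
    refine (measure_union_le _ _).trans ((add_le_add v1 v2).trans (le_trans ?_ hK))
    rw [← measure_union (disjoint_left.2 fun x p q => by
      have p1 : 0 < 1 * cr v x := p.2
      have q1 : 0 < -1 * cr v x := q.2
      linarith) (N.cp.measurableSet.inter
        (isOpen_lt continuous_const (by unfold cr; fun_prop)).measurableSet)]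
    exact measure_mono (union_subset inter_subset_left inter_subset_left)
  push Not at h0
  obtain ⟨x0, p0, q0, r0⟩ := h0
  have hI : IsCompact ({x | x - v ∈ K} ∩ {x | x - -v ∈ K}) :=
    ((Homeomorph.subRight v).isCompact_preimage.2 N.cp).inter_right
      (N.cp.isClosed.preimage (by fun_prop))
  obtain ⟨A, ⟨A1, A2⟩, hA⟩ := hI.exists_isMaxOn (f := fun x => cr v x) ⟨x0, p0, q0⟩
    (by unfold cr; fun_prop)
  obtain ⟨H, hH⟩ : ∃ H, H = cr v A := ⟨_, rfl⟩
  have H0 : 0 < H := hH ▸ r0.trans_le (hA (a := x0) ⟨p0, q0⟩)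
  have e1 : ∀ x y ε : ℝ, lin v A (x - ε, y) = lin v A (x, y) - ε • v := fun x y ε => by
    simp only [lin_apply]; module
  have T : Tw (lin v A ⁻¹' K) (lin v A ⁻¹' C) :=
    ⟨N.cp.isClosed.preimage (lin v A).continuous_of_finiteDimensional, N.cv.linear_preimage _,
      fun x hx => by rw [mem_preimage, map_neg]; exact N.sy _ hx,
      by rw [mem_preimage, lin_apply]; convert (show A - -v ∈ K from A2) using 1; simp [add_comm],
      by rw [mem_preimage, lin_apply]; convert (show A - v ∈ K from A1) using 1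
         simp [sub_eq_neg_add],
      fun x y p q => by
        rw [mem_preimage, e1] at p q
        have := hA (a := lin v A (x, y)) ⟨by simpa using p, by simpa using q⟩
        have e : cr v (lin v A (x, y)) = y * H := by rw [hH, lin_apply]; simp [cr]; ring
        simp only [mem_ofPred_eq, e, ← hH] at this
        exact le_of_mul_le_mul_right (by linarith) H0,
      hC.linear_preimage _,
      fun z hz => by
        rw [mem_preimage, mem_preimage, e1, e1]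
        simpa using cov _ hz⟩
  have im : ∀ S : Set (ℝ × ℝ), volume S = ENNReal.ofReal H * volume (lin v A ⁻¹' S) := fun S => by
    have := volume_image_lin v A (lin v A ⁻¹' S)
    rwa [image_preimage_eq _ fun p => ⟨(cr p A / cr v A, cr v p / cr v A), by
      rw [lin_apply]; exact (cramer v A p (hH ▸ H0.ne')).symm⟩, ← hH, abs_of_pos H0] at this
  have key := T.main (q := 2 / H) (t := (2 + e) / H) (e := e)
    (fun a ha b hb => by
      have := N.hq _ ha _ hb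
      rw [cr_lin, ← hH] at this
      rw [le_div_iff₀ H0]; linarith)
    (fun a ha b hb c hc => by
      have := N.ht _ ha _ hb _ hc
      rw [← map_sub, ← map_sub, cr_lin, ← hH] at this
      rw [← mul_div_assoc, le_div_iff₀ H0]; linarith)
    N.e0 N.e1 (by ring) (by
      rw [← ENNReal.mul_le_mul_iff_right (a := ENNReal.ofReal H) (by simpa using H0)
        ENNReal.ofReal_ne_top, ← im, N.hV, ← ENNReal.ofReal_mul H0.le]
      refine ENNReal.ofReal_le_ofReal (hV.trans (le_of_eq ?_))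
      field_simp)
  rw [im C]
  refine (mul_le_mul_right key _).trans (le_of_eq ?_)
  rw [← ENNReal.ofReal_mul H0.le]
  congr 1
  field_simp

theorem sTwo (hA : SAQ) : STwo := by
  intro K V e N C hC b1 b2 cov
  have hV : V ≤ 3 * (2 + e) - 2 * e ^ 2 := by
    have h1 := hA K V e N
    have h2 := N.area le_rfl zero_le_one
    have h3 := mul_nonneg N.e0 (sub_nonneg.2 N.e1)
    rcases le_total e (1 / 4) with r | r
    · nlinarith [N.e0]
    · nlinarith [mul_nonneg (sub_nonneg.2 r) (sub_nonneg.2 N.e1)]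
  have := two0_Tw N hV (C := {z | z - -((1 / 2 : ℝ) • (b1 + b2)) ∈ C})
    (by simp only [sub_neg_eq_add]; exact hC.translate_preimage_left _)
    (v := (1 / 2 : ℝ) • (b1 - b2)) fun x hx => (cov _ hx).imp
      (fun r => by convert r using 1; module) fun r => by convert r using 1; module
  rwa [vol_tr_Tw] at this

end

section

open Filter Set MeasureTheory Metric

theorem sJ2 (h : SCap) : SJ2 := by
  intro K V e N A hA C hC A' hA' C' hC'
  have hc := N.cp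
  have hs := N.sy
  have hV := N.hV
  have ht := N.ht
  have e0 := N.e0
  have ee1 := N.e1
  obtain ⟨t, htdef⟩ : ∃ t, t = 2 + e := ⟨_, rfl⟩
  rw [← htdef] at ht ⊢
  let F : (ℝ × ℝ) × (ℝ × ℝ) × (ℝ × ℝ) × (ℝ × ℝ) → ℝ := fun z =>
    cr (z.2.1 - z.1) (z.2.2.2 - z.2.2.1) + 2 * cr z.1 z.2.1 + 2 * cr z.2.2.1 z.2.2.2
  have hF : Continuous F := by unfold F cr; fun_prop
  obtain ⟨⟨u, w, u', w'⟩, ⟨hu, hw, hu', hw'⟩, hmax⟩ :=
    (hc.prod (hc.prod (hc.prod hc))).exists_isMaxOn ⟨(A, C, A', C'), hA, hC, hA', hC'⟩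
      hF.continuousOn
  simp only at hu hw hu' hw'
  have hM : ∀ a ∈ K, ∀ b ∈ K, ∀ a' ∈ K, ∀ b' ∈ K,
      cr (b - a) (b' - a') + 2 * cr a b + 2 * cr a' b' ≤
        cr (w - u) (w' - u') + 2 * cr u w + 2 * cr u' w' :=
    fun a ha b hb a' ha' b' hb' => hmax (a := (a, b, a', b')) ⟨ha, hb, ha', hb'⟩
  have h6 : ∀ a ∈ K, ∀ b ∈ K, 6 * cr a b ≤ cr (w - u) (w' - u') + 2 * cr u w + 2 * cr u' w' := by
    intro a ha b hb
    have := hM a ha b hb b hb (-a) (hs a ha)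
    have e : cr (b - a) (-a - b) + 2 * cr a b + 2 * cr b (-a) = 6 * cr a b := by
      unfold cr; simp; ring
    linarith
  have htri : ∀ a ∈ K, ∀ b ∈ K, ∀ Z ∈ K, cr Z (b - a) ≤ 2 * t - cr a b := by
    intro a ha b hb Z hZ
    have := ht a ha b hb (-Z) (hs Z hZ)
    have e : cr (b - a) (-Z - a) = cr Z (b - a) + cr a b := by unfold cr; simp; ring
    linarith
  have hneg : ∀ Z d : ℝ × ℝ, cr (-Z) d = -cr Z d := by intro Z d; unfold cr; simp; ring
  suffices hfin : V + (cr (w - u) (w' - u') + 2 * cr u w + 2 * cr u' w') ≤ 8 * t - 2 * e ^ 2 by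
    have := hM A hA C hC A' hA' C' hC'
    linarith
  set d := w - u with hd
  set f := w' - u' with he
  set D := cr d f with hD
  set p := cr u w with hp
  set p' := cr u' w' with hp'
  have a1 := h6 u hu w hw
  have a2 := h6 u' hu' w' hw'
  have hp0 : 0 ≤ p := by
    have := hM (-w) (hs w hw) (-u) (hs u hu) u' hu' w' hw'
    have e1 : cr (-u - -w) (w' - u') = D := by rw [hD, hd, he]; unfold cr; simp; ring
    have e2 : cr (-w) (-u) = -p := by rw [hp]; unfold cr; simp; ring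
    linarith
  have hDe : D = cr w f - cr u f := by rw [hD, hd]; unfold cr; simp; ring
  have hψu : cr u f ≤ 0 := by
    have := hM (-w) (hs w hw) u hu u' hu' w' hw'
    have e1 : cr (u - -w) (w' - u') = cr u f + cr w f := by rw [he]; unfold cr; simp; ring
    have e2 : cr (-w) u = p := by rw [hp]; unfold cr; simp; ring
    linarith
  have hψw : 0 ≤ cr w f := by
    have := hM w hw (-u) (hs u hu) u' hu' w' hw'
    have e1 : cr (-u - w) (w' - u') = -cr u f - cr w f := by rw [he]; unfold cr; simp; ring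
    have e2 : cr w (-u) = p := by rw [hp]; unfold cr; simp; ring
    linarith
  have ht0 : 0 ≤ t := by
    have := ht u hu u hu u hu
    unfold cr at this; simp at this; linarith
  have hD2 : 2 * p ≤ D := by linarith
  have hD0 : 0 < D := by
    have := h6 _ N.k1 _ N.k2
    have e1 : cr ((1, 1) : ℝ × ℝ) (-1, 1) = 2 := by unfold cr; norm_num
    linarith
  have hφ : ∀ Z ∈ K, cr Z d ≤ 2 * t - p := fun Z hZ => htri u hu w hw Z hZ
  have hψ : ∀ Z ∈ K, cr Z f ≤ 2 * t - p' := fun Z hZ => htri u' hu' w' hw' Z hZ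
  have hφu : cr u d = p := by rw [hd, hp]; unfold cr; simp; ring
  have hφw : cr w d = p := by rw [hd, hp]; unfold cr; simp; ring
  have hpl : ∀ Z W : ℝ × ℝ, D * cr Z W = cr Z d * cr W f - cr Z f * cr W d := by
    intro Z W; rw [hD]; unfold cr; ring
  have hcap : ∀ Z ∈ K, p ≤ cr Z d → cr u f ≤ cr Z f ∧ cr Z f ≤ cr w f := by
    intro Z hZ hZp
    have hpos : 0 < D + 2 * p := by linarith
    constructor
    · have m := hM Z hZ w hw u' hu' w' hw'
      have e1 : cr (w - Z) (w' - u') = cr w f - cr Z f := by rw [he]; unfold cr; simp; ring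
      have e2 := hpl Z w
      rw [hφw] at e2
      rw [e1] at m
      have m2 := mul_le_mul_of_nonneg_left m hD0.le
      have : (D + 2 * p) * (cr u f - cr Z f) ≤ 0 := by
        nlinarith [mul_nonneg hψw (sub_nonneg.2 hZp)]
      by_contra hcon
      push Not at hcon
      nlinarith [mul_pos hpos (sub_pos.2 hcon)]
    · have m := hM u hu Z hZ u' hu' w' hw'
      have e1 : cr (Z - u) (w' - u') = cr Z f - cr u f := by rw [he]; unfold cr; simp; ring
      have e2 := hpl u Z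
      rw [hφu] at e2
      rw [e1] at m
      have m2 := mul_le_mul_of_nonneg_left m hD0.le
      have : (D + 2 * p) * (cr Z f - cr w f) ≤ 0 := by
        nlinarith [mul_nonneg (neg_nonneg.2 hψu) (sub_nonneg.2 hZp)]
      by_contra hcon
      push Not at hcon
      nlinarith [mul_pos hpos (sub_pos.2 hcon)]
  have b1 := hψ w hw
  have b2 := hψ (-u) (hs u hu)
  rw [hneg] at b2
  have b3 := hφ u hu
  rw [hφu] at b3
  have hp2 : p ≤ 2 := N.hq u hu w hw
  set a := -cr u f with ha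
  set b := cr w f with hb
  have hab : a + b = D := by linarith
  let T : Set (ℝ × ℝ) := {z | -a ≤ z.1 ∧ z.1 ≤ -a + (a + b) ∧ p ≤ z.2 ∧ z.2 ≤ p + 2 * (t - p) ∧
    b * (z.2 - p) ≤ D * (2 - p) + p * (z.1 - -a) ∧
    a * (z.2 - p) ≤ D * (2 - p) + p * (-a + (a + b) - z.1)}
  have hT := h T (-a) p a b (2 * (t - p)) (D * (2 - p)) p e (by linarith) hψw (by linarith)
    (mul_nonneg hD0.le (by linarith)) hp0 e0 ee1 fun z hz => hz
  rw [hab] at hT
  have hT1 : volume T ≤ ENNReal.ofReal (2 * (t - p) * D - D * e ^ 2) := by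
    refine hT.trans (ENNReal.ofReal_le_ofReal ?_)
    rw [htdef]
    nlinarith [mul_nonneg (mul_nonneg hD0.le (sq_nonneg e)) (sub_nonneg.2 hp2)]
  have hT2 : volume {z : ℝ × ℝ | -z ∈ T} ≤ volume T := by
    have h1 := vol_coord (K := {z : ℝ × ℝ | -z ∈ T}) (R := T) (0, -1) (1, 0) fun Z hZ => by
      have e1 : (cr Z (0, -1), cr Z (1, 0)) = -Z := by unfold cr; ext <;> simp
      rw [e1]; exact hZ
    have e2 : cr ((0, -1) : ℝ × ℝ) (1, 0) = 1 := by unfold cr; norm_num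
    simpa [e2] using h1
  have hmem : ∀ Z ∈ K, p ≤ cr Z d → (cr Z f, cr Z d) ∈ T := by
    intro Z hZ h1
    obtain ⟨c1, c2⟩ := hcap Z hZ h1
    have c3 := hφ Z hZ
    have q1 := mul_le_mul_of_nonneg_left (N.hq Z hZ w hw) hD0.le
    have q2 := mul_le_mul_of_nonneg_left (N.hq u hu Z hZ) hD0.le
    rw [hpl Z w, hφw] at q1
    rw [hpl u Z, hφu] at q2
    have hu' : cr u f = -a := by rw [ha, neg_neg]
    rw [hu'] at q2 c1
    have hpD : p * D = p * a + p * b := by rw [← hab]; ring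
    refine ⟨c1, ?_, h1, ?_, ?_, ?_⟩ <;> simp only <;> nlinarith
  have h1 := vol_coord (K := K) (R := (Icc (-(2 * t - p')) (2 * t - p') ×ˢ Icc (-p) p ∪ T ∪
      {z : ℝ × ℝ | -z ∈ T})) f d (by
    intro Z hZ
    have c3 := hψ Z hZ
    have c4 := hψ (-Z) (hs Z hZ)
    rw [hneg] at c4
    by_cases h1 : p ≤ cr Z d
    · exact Or.inl (Or.inr (hmem Z hZ h1))
    · by_cases h2 : cr Z d ≤ -p
      · have := hmem (-Z) (hs Z hZ) (by rw [hneg]; linarith)
        rw [hneg, hneg] at this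
        exact Or.inr this
      · refine Or.inl (Or.inl ⟨⟨?_, c3⟩, ?_, ?_⟩) <;> simp only <;> linarith)
  have hfd : |cr f d| = D := by
    have : cr f d = -D := by rw [hD]; unfold cr; ring
    rw [this, abs_neg, abs_of_pos hD0]
  have h2 := (measure_union_le (μ := (volume : Measure (ℝ × ℝ)))
    (Icc (-(2 * t - p')) (2 * t - p') ×ˢ Icc (-p) p ∪ T) {z : ℝ × ℝ | -z ∈ T}).trans
    (add_le_add ((measure_union_le _ _).trans (add_le_add le_rfl hT1)) (hT2.trans hT1))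
  rw [vol_box _ _ _ _ (by linarith)] at h2
  have n1 : 0 ≤ (2 * t - p' - -(2 * t - p')) * (p - -p) := mul_nonneg (by linarith) (by linarith)
  have n2 : 0 ≤ 2 * (t - p) * D - D * e ^ 2 := by
    have : 0 ≤ 2 * (t - p) - e ^ 2 := by nlinarith
    nlinarith [mul_nonneg this hD0.le]
  rw [← ENNReal.ofReal_add n1 n2, ← ENNReal.ofReal_add (add_nonneg n1 n2) n2] at h2
  rw [hV, hfd, ← ENNReal.ofReal_mul hD0.le] at h1
  have key := (ENNReal.ofReal_le_ofReal_iff (add_nonneg (add_nonneg n1 n2) n2)).1 (h1.trans h2)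
  have : D * V ≤ D * (8 * t - 2 * e ^ 2 - (D + 2 * p + 2 * p')) := by
    nlinarith [mul_nonneg (sub_nonneg.2 hD2) (show 0 ≤ 4 * t - 2 * p' - D by linarith)]
  have := le_of_mul_le_mul_left this hD0
  linarith

end

section

open Filter Set MeasureTheory Metric

theorem line_null_Four {D : ℝ × ℝ} (hD : D ≠ 0) (Q : ℝ × ℝ) :
    volume {x : ℝ × ℝ | cr D (x - Q) = 0} = 0 := by
  let W : Submodule ℝ (ℝ × ℝ) :=
    { carrier := {x | cr D x = 0}
      add_mem' := by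
        intro x y hx hy
        simp only [cr, mem_ofPred_eq, Prod.fst_add, Prod.snd_add] at hx hy ⊢
        linear_combination hx + hy
      zero_mem' := by simp [cr]
      smul_mem' := by
        intro c x hx
        simp only [cr, mem_ofPred_eq, Prod.smul_fst, Prod.smul_snd, smul_eq_mul] at hx ⊢
        linear_combination c * hx }
  have hW : W ≠ ⊤ := by
    intro h
    have h1 : ((1, 0) : ℝ × ℝ) ∈ W := h ▸ Submodule.mem_top
    have h2 : ((0, 1) : ℝ × ℝ) ∈ W := h ▸ Submodule.mem_top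
    have h1' : cr D (1, 0) = 0 := h1
    have h2' : cr D (0, 1) = 0 := h2
    simp only [cr] at h1' h2'
    apply hD
    ext
    · simp only [Prod.fst_zero]; linarith
    · simp only [Prod.snd_zero]; linarith
  have h0 := Measure.addHaar_submodule (volume : Measure (ℝ × ℝ)) W hW
  have e : {x : ℝ × ℝ | cr D (x - Q) = 0} = (fun x => -Q + x) ⁻¹' (W : Set (ℝ × ℝ)) := by
    ext x
    show cr D (x - Q) = 0 ↔ cr D (-Q + x) = 0
    rw [neg_add_eq_sub]
  rw [e, measure_preimage_add, h0]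

theorem three_cell_Four {C : Set (ℝ × ℝ)} (hc : IsCompact C) (hv : Convex ℝ C) {T η : ℝ}
    (T0 : 0 ≤ T) (hη : η ≤ T) {D Q D' Q' : ℝ × ℝ} (hD : D ≠ 0 ∨ D' ≠ 0) {S2 S3 : Set (ℝ × ℝ)}
    (t2 : ∀ a ∈ S2, ∀ b ∈ S2, ∀ c ∈ S2, cr (b - a) (c - a) ≤ T)
    (t3 : ∀ a ∈ S3, ∀ b ∈ S3, ∀ c ∈ S3, cr (b - a) (c - a) ≤ T)
    (H : ∀ D0 : Set (ℝ × ℝ), Convex ℝ D0 → D0 ⊆ S2 ∪ S3 → volume D0 ≤ ENNReal.ofReal (2 * T - η))
    (h3 : ∀ x ∈ C, 0 < cr D' (x - Q') → x ∈ S3)
    (h2 : ∀ x ∈ C, cr D (x - Q) ≤ 0 → cr D' (x - Q') ≤ 0 →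
      cr D (x - Q) < 0 ∨ cr D' (x - Q') < 0 → x ∈ S2)
    (hcap : volume {x | x ∈ C ∧ 0 < cr D (x - Q)} ≤ ENNReal.ofReal T) :
    volume C ≤ ENNReal.ofReal (3 * T - η) := by
  by_cases hD0 : D = 0
  · subst hD0
    have hD' : D' ≠ 0 := hD.resolve_left (by simp)
    have z : ∀ x : ℝ × ℝ, cr 0 x ≤ 0 := fun x => by simp [cr]
    exact (two_cell hc hv T0 (Q := Q') hD'
      (fun a ha b hb c hc a1 b1 c1 => t3 a (h3 a ha a1) b (h3 b hb b1) c (h3 c hc c1))
      (fun a ha b hb c hc a1 b1 c1 => t2 a (h2 a ha (z _) a1.le (Or.inr a1))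
        b (h2 b hb (z _) b1.le (Or.inr b1)) c (h2 c hc (z _) c1.le (Or.inr c1)))).trans
      (ENNReal.ofReal_le_ofReal (by linarith))
  · have hcv : Convex ℝ {x : ℝ × ℝ | cr D (x - Q) < 0} := by
      have hl : IsLinearMap ℝ (fun x : ℝ × ℝ => cr D x) :=
        ⟨fun x y => by simp only [cr, Prod.fst_add, Prod.snd_add]; ring,
          fun c x => by simp only [cr, Prod.smul_fst, Prod.smul_snd, smul_eq_mul]; ring⟩
      have e : {x : ℝ × ℝ | cr D (x - Q) < 0} = {x : ℝ × ℝ | cr D x < cr D Q} := by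
        ext x
        simp only [mem_ofPred_eq, cr, Prod.fst_sub, Prod.snd_sub]
        constructor <;> intro h <;> linarith
      rw [e]
      exact convex_halfSpace_lt hl (cr D Q)
    have key := H (C ∩ {x | cr D (x - Q) < 0}) (hv.inter hcv) (fun x hx =>
      (lt_or_ge 0 (cr D' (x - Q'))).elim (fun h => Or.inr (h3 x hx.1 h))
        fun h => Or.inl (h2 x hx.1 (le_of_lt hx.2) h (Or.inl hx.2)))
    have hsub : C ⊆ ({x | x ∈ C ∧ 0 < cr D (x - Q)} ∪ C ∩ {x | cr D (x - Q) < 0}) ∪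
        {x | cr D (x - Q) = 0} := fun x hx => by
      rcases lt_trichotomy 0 (cr D (x - Q)) with h | h | h
      · exact Or.inl (Or.inl ⟨hx, h⟩)
      · exact Or.inr h.symm
      · exact Or.inl (Or.inr ⟨hx, h⟩)
    refine (measure_mono hsub).trans ((measure_union_le _ _).trans ?_)
    rw [line_null_Four hD0, add_zero]
    refine (measure_union_le _ _).trans ((add_le_add hcap key).trans (le_of_eq ?_))
    rw [← ENNReal.ofReal_add T0 (by linarith)]
    congr 1; ring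

theorem sFour : SFour := by
  intro C s0 s1 L U σT σB hc hv PC e1 Sl hfat T η T0 hη G hG H S0 S1 S2 S3 g0 g1 g2 g3 a b c d
    h0 hab hbc hcd h1 c0 c1 c2 c3 c4 hrep
  obtain ⟨v0, t0, n0⟩ := hG S0 g0
  obtain ⟨v1, t1, n1⟩ := hG S1 g1
  obtain ⟨v2, t2, n2⟩ := hG S2 g2
  obtain ⟨v3, t3, n3⟩ := hG S3 g3
  have i1 := arc_inner hv PC e1 h0 hab (by linarith) v1 c1
  have i2 := arc_inner hv PC e1 (by linarith) hbc (by linarith) v2 c2
  have i3 := arc_inner hv PC e1 (by linarith) hcd h1 v3 c3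
  have i0 := arc_outer hv PC e1 h0 (by linarith) h1 v0 c0 c4
  rcases hrep with rfl | rfl
  · have mid : ∀ x ∈ C, cr (gam s1 L U b - gam s1 L U a) (x - gam s1 L U a) ≤ 0 →
        cr (gam s1 L U d - gam s1 L U c) (x - gam s1 L U c) ≤ 0 →
        cr (gam s1 L U b - gam s1 L U a) (x - gam s1 L U a) < 0 ∨
          cr (gam s1 L U d - gam s1 L U c) (x - gam s1 L U c) < 0 → x ∈ S0 := by
      intro x hx p q r
      by_contra hn
      have p2 := not_lt.1 fun h => hn (i2 x hx h)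
      have p0 := not_lt.1 fun h => hn (i0 x hx h)
      exact hn (quad_mem v0 (c0 a h0 le_rfl) (c2 b le_rfl hbc) (c2 c hbc le_rfl) (c4 d le_rfl h1)
        p p2 q p0 (by rcases r with r | r <;> linarith))
    have hD : gam s1 L U b - gam s1 L U a ≠ 0 ∨ gam s1 L U d - gam s1 L U c ≠ 0 := by
      by_contra h
      push Not at h
      rcases gam_inj hfat h0 hab h.1 with rfl | ⟨rfl, rfl⟩
      · rcases gam_inj hfat (by linarith) hcd h.2 with rfl | ⟨rfl, rfl⟩
        · exact n0 (all_in PC e1 v0 fun τ p q => (le_total τ a).elim (c0 τ p) fun r =>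
            (le_total τ c).elim (c2 τ r) fun r => c4 τ r q)
        · exact n3 (all_in PC e1 v3 c3)
      · exact n1 (all_in PC e1 v1 c1)
    rcases le_total b s1 with h | h
    · exact three_cell_Four hc hv T0 hη hD t0 t3 (H _ _ g0 g3) i3 mid
        (cap_inner hv PC e1 Sl h0 hab (by linarith) (Or.inl h) v1 t1 c1)
    · exact three_cell_Four hc hv T0 hη hD.symm t0 t1 (H _ _ g0 g1) i1
        (fun x hx p q r => mid x hx q p r.symm)
        (cap_inner hv PC e1 Sl (by linarith) hcd h1 (Or.inr (Or.inl (by linarith))) v3 t3 c3)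
  · have mid : ∀ x ∈ C, cr (gam s1 L U c - gam s1 L U b) (x - gam s1 L U b) ≤ 0 →
        cr (gam s1 L U a - gam s1 L U d) (x - gam s1 L U d) ≤ 0 →
        cr (gam s1 L U c - gam s1 L U b) (x - gam s1 L U b) < 0 ∨
          cr (gam s1 L U a - gam s1 L U d) (x - gam s1 L U d) < 0 → x ∈ S1 := by
      intro x hx p q r
      by_contra hn
      have p1 := not_lt.1 fun h => hn (i1 x hx h)
      have p3 := not_lt.1 fun h => hn (i3 x hx h)
      exact hn (quad_mem v1 (c1 a le_rfl hab) (c1 b hab le_rfl) (c3 c le_rfl hcd) (c3 d hcd le_rfl)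
        p1 p p3 q (by rcases r with r | r <;> linarith))
    have hD : gam s1 L U c - gam s1 L U b ≠ 0 ∨ gam s1 L U a - gam s1 L U d ≠ 0 := by
      by_contra h
      push Not at h
      have h2 : gam s1 L U d - gam s1 L U a = 0 := by rw [← neg_sub, h.2, neg_zero]
      rcases gam_inj hfat h0 (by linarith) h2 with rfl | ⟨rfl, rfl⟩
      · exact n0 (all_in PC e1 v0 fun τ p q => (le_total τ a).elim (c0 τ p) fun r => c4 τ r q)
      · rcases gam_inj hfat hab hbc h.1 with rfl | ⟨rfl, rfl⟩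
        · exact n1 (all_in PC e1 v1 fun τ p q => (le_total τ b).elim (c1 τ p) fun r => c3 τ r q)
        · exact n2 (all_in PC e1 v2 c2)
    by_cases h : c ≤ s1 ∨ s1 ≤ b ∨ (b ≤ s1 ∧ s1 ≤ c ∧ σT b ≤ σB (2 * s1 - c))
    · exact three_cell_Four hc hv T0 hη hD t1 t0 (H _ _ g1 g0) i0 mid
        (cap_inner hv PC e1 Sl (by linarith) hbc (by linarith) h v2 t2 c2)
    · push Not at h
      obtain ⟨p, q, r⟩ := h
      have r := r q.le p.le
      exact three_cell_Four hc hv T0 hη hD.symm t1 t2 (H _ _ g1 g2) i2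
        (fun x hx p q r => mid x hx q p r.symm)
        (cap_outer hv PC e1 Sl h0 (by linarith) (by linarith) h1 (by
          have := Sl.top_anti h0 hab q.le
          have := Sl.bot_mono (x := 2 * s1 - d) (y := 2 * s1 - c) (by linarith) (by linarith)
            (by linarith)
          linarith) v0 t0 c0 c4)

end

section

open Filter Set MeasureTheory Metric

/-- membership of a pair of coordinates -/
def In_Oct (α β s t : ℝ) : Prop := |s| ≤ 1 ∧ |t| ≤ α ∧ |s| + |t| ≤ β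

theorem in_Oct {α β s t : ℝ} : In_Oct α β s t ↔ (-1 ≤ s ∧ s ≤ 1) ∧ (-α ≤ t ∧ t ≤ α) ∧
    s + t ≤ β ∧ s - t ≤ β ∧ -s + t ≤ β ∧ -s - t ≤ β := by
  refine and_congr abs_le (and_congr abs_le ⟨fun h => ?_, fun h => ?_⟩)
  · have := le_abs_self s
    have := le_abs_self t
    have := neg_abs_le s
    have := neg_abs_le t
    exact ⟨by linarith, by linarith, by linarith, by linarith⟩
  · rcases abs_cases s with a | a <;> rcases abs_cases t with b | b <;>
      linarith [a.1, b.1, h.1, h.2.1, h.2.2.1, h.2.2.2]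

def set_Oct (α β : ℝ) : Set E2 := {p | In_Oct α β (p 0) (p 1)}

theorem body_Oct {α β : ℝ} (hα : 1 ≤ α) (hβ : 1 ≤ β) : Body (set_Oct α β) := by
  refine ⟨?_, ?_, 0, ?_⟩
  · have h : IsCompact {p : ℝ × ℝ | In_Oct α β p.1 p.2} := by
      refine ((isCompact_Icc (a := (-1 : ℝ)) (b := 1)).prod
        (isCompact_Icc (a := -α) (b := α))).of_isClosed_subset ?_
        fun p hp => ⟨(in_Oct.1 hp).1, (in_Oct.1 hp).2.1⟩
      refine IsClosed.and ?_ (IsClosed.and ?_ ?_) <;> apply isClosed_le <;> fun_prop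
    exact toP.toHomeomorph.isCompact_preimage.2 h
  · intro x hx y hy a b ha hb hab
    obtain ⟨⟨x1, x2⟩, ⟨x3, x4⟩, x5, x6, x7, x8⟩ := in_Oct.1 hx
    obtain ⟨⟨y1, y2⟩, ⟨y3, y4⟩, y5, y6, y7, y8⟩ := in_Oct.1 hy
    have k : ∀ u v c : ℝ, u ≤ c → v ≤ c → a * u + b * v ≤ c := fun u v c h1 h2 => by
      have := add_le_add (mul_le_mul_of_nonneg_left h1 ha) (mul_le_mul_of_nonneg_left h2 hb)
      rwa [← add_mul, hab, one_mul] at this
    refine in_Oct.2 ?_
    simp only [PiLp.add_apply, PiLp.smul_apply, smul_eq_mul]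
    exact ⟨⟨by linarith [k (-x 0) (-y 0) 1 (by linarith) (by linarith)], k _ _ _ x2 y2⟩,
      ⟨by linarith [k (-x 1) (-y 1) α (by linarith) (by linarith)], k _ _ _ x4 y4⟩,
      by linarith [k _ _ _ x5 y5], by linarith [k _ _ _ x6 y6], by linarith [k _ _ _ x7 y7],
      by linarith [k _ _ _ x8 y8]⟩
  · refine mem_interior.2 ⟨{p | |p 0| < 1 / 2} ∩ {p | |p 1| < 1 / 2}, fun p hp => ?_,
      (isOpen_lt (by fun_prop) (by fun_prop)).inter (isOpen_lt (by fun_prop) (by fun_prop)),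
      by simp⟩
    have h0 : |p 0| < 1 / 2 := hp.1
    have h1 : |p 1| < 1 / 2 := hp.2
    exact ⟨by linarith, by linarith, by linarith⟩

theorem two_Oct {α s t u v : ℝ} (h : In_Oct α 2 s t) (g : In_Oct α 2 u v) :
    |s * v - t * u| ≤ 2 := by
  refine (abs_sub _ _).trans ?_
  rw [abs_mul, abs_mul]
  nlinarith [mul_nonneg (sub_nonneg.2 h.1) (sub_nonneg.2 g.1),
    mul_nonneg (abs_nonneg s) (sub_nonneg.2 g.2.2), mul_nonneg (abs_nonneg u) (sub_nonneg.2 h.2.2)]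

theorem sorted_Oct {e s1 t1 s2 t2 s3 t3 : ℝ} (e0 : 0 ≤ e) (h1 : In_Oct (1 + e) 2 s1 t1)
    (h2 : In_Oct (1 + e) 2 s2 t2) (h3 : In_Oct (1 + e) 2 s3 t3) (a : s1 ≤ s2) (b : s2 ≤ s3) :
    |t1 * (s3 - s2) - t2 * (s3 - s1) + t3 * (s2 - s1)| ≤ 4 + 2 * e := by
  have c1 := (in_Oct.1 h1).1.1
  have c3 := (in_Oct.1 h3).1.2
  obtain ⟨m, m0, m1, m2, m3, m4⟩ : ∃ m, 0 ≤ m ∧ m ≤ e ∧ m ≤ 2 - (s3 - s1) ∧ |t1| ≤ 1 + m ∧
      |t3| ≤ 1 + m := by
    rcases le_total e (2 - (s3 - s1)) with c | c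
    · exact ⟨e, e0, le_rfl, c, h1.2.1, h3.2.1⟩
    · exact ⟨_, by linarith, c, le_rfl, by linarith [h1.2.2, neg_abs_le s1],
        by linarith [h3.2.2, le_abs_self s3]⟩
  refine (abs_add_le _ _).trans ((add_le_add (abs_sub _ _) le_rfl).trans ?_)
  rw [abs_mul, abs_mul, abs_mul, abs_of_nonneg (sub_nonneg.2 a), abs_of_nonneg (sub_nonneg.2 b),
    abs_of_nonneg (sub_nonneg.2 (a.trans b))]
  have p1 := mul_le_mul_of_nonneg_right m3 (sub_nonneg.2 b)
  have p2 := mul_le_mul_of_nonneg_right h2.2.1 (sub_nonneg.2 (a.trans b))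
  have p3 := mul_le_mul_of_nonneg_right m4 (sub_nonneg.2 a)
  have p4 := mul_nonneg (sub_nonneg.2 m2) (show 0 ≤ 2 + e + m by linarith)
  have p5 := mul_nonneg m0 (add_nonneg e0 m0)
  linarith

theorem three_Oct {e s1 t1 s2 t2 s3 t3 : ℝ} (e0 : 0 ≤ e) (h1 : In_Oct (1 + e) 2 s1 t1)
    (h2 : In_Oct (1 + e) 2 s2 t2) (h3 : In_Oct (1 + e) 2 s3 t3) :
    |(s2 - s1) * (t3 - t1) - (t2 - t1) * (s3 - s1)| ≤ 4 + 2 * e := by
  rw [abs_le]
  rcases le_total s1 s2 with a | a <;> rcases le_total s2 s3 with b | b <;>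
    rcases le_total s1 s3 with c | c
  all_goals first
    | have := abs_le.1 (sorted_Oct e0 h1 h2 h3 a b)
    | have := abs_le.1 (sorted_Oct e0 h1 h3 h2 c b)
    | have := abs_le.1 (sorted_Oct e0 h3 h1 h2 c a)
    | have := abs_le.1 (sorted_Oct e0 h2 h1 h3 a c)
    | have := abs_le.1 (sorted_Oct e0 h2 h3 h1 b c)
    | have := abs_le.1 (sorted_Oct e0 h3 h2 h1 b a)
  all_goals exact ⟨by linarith [this.1, this.2], by linarith [this.1, this.2]⟩

theorem int_Oct {e : ℝ} (e0 : 0 ≤ e) (e1 : e ≤ 1) :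
    ∫ x in (-1 : ℝ)..1, (min (2 + e) (3 - |x|) - -min (2 + e) (3 - |x|)) =
      8 + 4 * e - 2 * e ^ 2 := by
  have hc : Continuous fun x : ℝ => min (2 + e) (3 - |x|) - -min (2 + e) (3 - |x|) := by fun_prop
  have lin : ∀ a b c d : ℝ, ∫ x in a..b, (c + d * x) = c * (b - a) + d * ((b ^ 2 - a ^ 2) / 2) := by
    intro a b c d
    rw [intervalIntegral.integral_add (by simp) (Continuous.intervalIntegrable (by fun_prop) _ _),
      intervalIntegral.integral_const_mul, integral_id]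
    simp [mul_comm]
  rw [← intervalIntegral.integral_add_adjacent_intervals (b := e - 1) (hc.intervalIntegrable _ _)
    (hc.intervalIntegrable _ _), ← intervalIntegral.integral_add_adjacent_intervals (a := e - 1)
    (b := 1 - e) (hc.intervalIntegrable _ _) (hc.intervalIntegrable _ _),
    intervalIntegral.integral_congr (a := -1) (g := fun x => 6 + 2 * x),
    intervalIntegral.integral_congr (a := e - 1) (g := fun x => 4 + 2 * e + 0 * x),
    intervalIntegral.integral_congr (a := 1 - e) (g := fun x => 6 + -2 * x), lin, lin, lin]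
  · ring
  · intro x hx
    rw [uIcc_of_le (by linarith)] at hx
    simp only
    rw [abs_of_nonneg (by linarith [hx.1]), min_eq_right (by linarith [hx.1])]
    ring
  · intro x hx
    rw [uIcc_of_le (by linarith)] at hx
    have := abs_le.2 (⟨by linarith [hx.1], hx.2⟩ : -(1 - e) ≤ x ∧ x ≤ 1 - e)
    simp only
    rw [min_eq_left (by linarith)]
    ring
  · intro x hx
    rw [uIcc_of_le (by linarith)] at hx
    simp only
    rw [abs_of_nonpos (by linarith [hx.2]), min_eq_right (by linarith [hx.2])]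
    ring

theorem sOct : SOct := by
  intro e e0 e1
  have mem : ∀ s t : ℝ, In_Oct (1 + e) 2 s t → (!₂[s, t] : E2) ∈ set_Oct (1 + e) 2 :=
    fun s t h => h
  have m1 := mem (-1) (-1) (in_Oct.2 (by refine ⟨⟨?_, ?_⟩, ⟨?_, ?_⟩, ?_, ?_, ?_, ?_⟩ <;> linarith))
  have m2 := mem 1 (-1) (in_Oct.2 (by refine ⟨⟨?_, ?_⟩, ⟨?_, ?_⟩, ?_, ?_, ?_, ?_⟩ <;> linarith))
  have m3 := mem (-1) 1 (in_Oct.2 (by refine ⟨⟨?_, ?_⟩, ⟨?_, ?_⟩, ?_, ?_, ?_, ?_⟩ <;> linarith))
  have m4 := mem 0 (1 + e) (in_Oct.2 (by refine ⟨⟨?_, ?_⟩, ⟨?_, ?_⟩, ?_, ?_, ?_, ?_⟩ <;> linarith))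
  refine ⟨set_Oct (1 + e) 2, set_Oct (2 + e) 3, ![!₂[0, 1], !₂[0, -1]],
    body_Oct (by linarith) (by norm_num), ⟨0, fun x hx => ?_⟩, ⟨⟨_, m1, _, m2, _, m4, ?_⟩, ?_⟩,
    ⟨⟨_, m1, _, m2, _, m3, ?_, ?_⟩, ?_⟩, body_Oct (by linarith) (by norm_num), fun p hp => ?_, ?_⟩
  · simpa [set_Oct, In_Oct] using hx
  · rw [par, abs_of_nonneg] <;> simp <;> linarith
  · rintro _ ⟨x, hx, y, hy, z, hz, rfl⟩
    exact three_Oct e0 hx hy hz
  · refine in_Oct.2 ?_
    simp only [PiLp.add_apply, PiLp.sub_apply, Matrix.cons_val_zero, Matrix.cons_val_one]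
    refine ⟨⟨?_, ?_⟩, ⟨?_, ?_⟩, ?_, ?_, ?_, ?_⟩ <;> linarith
  · rw [par]
    norm_num
  · rintro _ ⟨x, hx, y, hy, z, hz, hw, rfl⟩
    obtain ⟨⟨x1, x2⟩, ⟨x3, x4⟩, x5, x6, x7, x8⟩ := in_Oct.1 hx
    obtain ⟨⟨y1, y2⟩, ⟨y3, y4⟩, y5, y6, y7, y8⟩ := in_Oct.1 hy
    obtain ⟨⟨z1, z2⟩, ⟨z3, z4⟩, z5, z6, z7, z8⟩ := in_Oct.1 hz
    obtain ⟨⟨w1, w2⟩, ⟨w3, w4⟩, w5, w6, w7, w8⟩ := in_Oct.1 hw
    simp only [PiLp.add_apply, PiLp.sub_apply] at w1 w2 w3 w4 w5 w6 w7 w8
    have := abs_le.1 (two_Oct (α := 1 + e) (s := (y 0 + z 0 - x 0 - x 0) / 2)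
      (t := (y 1 + z 1 - x 1 - x 1) / 2) (u := (z 0 - y 0) / 2) (v := (z 1 - y 1) / 2)
      (in_Oct.2 ⟨⟨by linarith, by linarith⟩, ⟨by linarith, by linarith⟩, by linarith, by linarith,
        by linarith, by linarith⟩)
      (in_Oct.2 ⟨⟨by linarith, by linarith⟩, ⟨by linarith, by linarith⟩, by linarith, by linarith,
        by linarith, by linarith⟩))
    exact abs_le.2 ⟨by linarith [this.1], by linarith [this.2]⟩
  · obtain ⟨⟨x1, x2⟩, ⟨x3, x4⟩, x5, x6, x7, x8⟩ := in_Oct.1 hp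
    rcases le_total 0 (p 1) with c | c
    · refine mem_iUnion.2 ⟨0, !₂[p 0, p 1 - 1], mem _ _ (in_Oct.2 ⟨⟨x1, x2⟩,
        ⟨by linarith, by linarith⟩, by linarith, by linarith, by linarith, by linarith⟩), ?_⟩
      ext i
      fin_cases i <;> simp
    · refine mem_iUnion.2 ⟨1, !₂[p 0, p 1 + 1], mem _ _ (in_Oct.2 ⟨⟨x1, x2⟩,
        ⟨by linarith, by linarith⟩, by linarith, by linarith, by linarith, by linarith⟩), ?_⟩
      ext i
      fin_cases i <;> simp
  · rw [← volume_image_toP, ← int_Oct e0 e1]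
    refine vol_ge (by norm_num) (by fun_prop) (by fun_prop) (fun x a b => ?_) fun p a b c d => ?_
    · have := abs_le.2 ⟨a, b⟩
      have : 0 ≤ min (2 + e) (3 - |x|) := le_min (by linarith) (by linarith)
      linarith
    · have := abs_le.2 ⟨c.le, d.le⟩
      exact ⟨!₂[p.1, p.2], ⟨abs_le.2 ⟨a.le, b.le⟩, this.trans (min_le_left _ _),
        le_sub_iff_add_le'.1 (this.trans (min_le_right _ _))⟩, rfl⟩

end

end Pool.Agent.MP_cab9bb_co.Sb
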