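import Pool.Agent.MP_cab9bb_co.Sb.St

set_option autoImplicit false

namespace Pool.Agent.MP_cab9bb_co.Sb

section

open Filter Set MeasureTheory Metric

theorem sum_AQ {G1 G2 s : ℝ} (h1 : G1 ≤ 2 - s) (h2 : G2 ≤ 2 - s) (h : G1 * G2 ≤ 2 - s ^ 2)
    (s0 : 0 ≤ s) (s1 : s ≤ 1) : G1 + G2 ≤ 3 - 3 * s / 8 - 9 * s ^ 2 / 16 := by
  have p := mul_nonneg (sub_nonneg.2 h1) (sub_nonneg.2 h2)
  have q := mul_nonneg s0 (sq_nonneg (3 * s - 2))
  refine le_of_mul_le_mul_left ?_ (show 0 < 2 - s by linarith)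
  nlinarith

theorem sAQ : SAQ := by
  intro K V e ⟨hc, hv, hs, k1, k2, hq, _, _, _, hV⟩
  obtain ⟨a, b, l, u, P⟩ := exists_prof hc hv ⟨_, k1⟩
  obtain ⟨c, d, L, R, Q⟩ := exists_prof (S := Prod.swap ⁻¹' K)
    ((Homeomorph.prodComm ℝ ℝ).isCompact_preimage.2 hc)
    (fun a ha b hb s t hs ht hst => hv ha hb hs ht hst) ⟨(1, 1), k1⟩
  have k3 : ((-1, -1) : ℝ × ℝ) ∈ K := hs _ k1
  have k4 : ((1, -1) : ℝ × ℝ) ∈ K := by simpa using hs _ k2
  have sq : ∀ x, -1 ≤ x → x ≤ 1 → (x, (1 : ℝ)) ∈ K ∧ (x, (-1 : ℝ)) ∈ K ∧ ((1 : ℝ), x) ∈ K ∧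
      ((-1 : ℝ), x) ∈ K := by
    intro x p q
    have t0 : 0 ≤ (x + 1) / 2 := by linarith
    have t1 : (x + 1) / 2 ≤ 1 := by linarith
    refine ⟨?_, ?_, vert_mem hv k4 k1 p q, vert_mem hv k3 k2 p q⟩
    · have := seg_mem hv k2 k1 t0 t1
      rwa [show (-1 : ℝ) + (x + 1) / 2 * (1 - -1) = x by ring,
        show (1 : ℝ) + (x + 1) / 2 * (1 - 1) = 1 by ring] at this
    · have := seg_mem hv k3 k4 t0 t1
      rwa [show (-1 : ℝ) + (x + 1) / 2 * (1 - -1) = x by ring,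
        show (-1 : ℝ) + (x + 1) / 2 * (-1 - -1) = -1 by ring] at this
  have pr : ∀ x, -1 ≤ x → x ≤ 1 → (x, u x) ∈ K ∧ (x, l x) ∈ K ∧ (R x, x) ∈ K ∧ (L x, x) ∈ K ∧
      1 ≤ u x ∧ l x ≤ -1 ∧ 1 ≤ R x ∧ L x ≤ -1 := by
    intro x p q
    obtain ⟨s1, s2, s3, s4⟩ := sq x p q
    have s1 := (P.mem _).1 s1
    have s2 := (P.mem _).1 s2
    have s3 := (Q.mem (x, 1)).1 s3
    have s4 := (Q.mem (x, -1)).1 s4
    exact ⟨P.hi_mem s1.1.1 s1.1.2, P.lo_mem s1.1.1 s1.1.2, Q.hi_mem s3.1.1 s3.1.2,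
      Q.lo_mem s3.1.1 s3.1.2, s1.2.2, s2.2.1, s3.2.2, s4.2.1⟩
  have dia : ∀ p ∈ K, (1 ≤ p.1 ∨ p.1 ≤ -1) → -1 ≤ p.2 ∧ p.2 ≤ 1 := by
    intro p hp h
    have b1 := hq _ k1 _ hp
    have b2 := hq _ hp _ k1
    have b3 := hq _ k2 _ hp
    have b4 := hq _ hp _ k2
    simp only [cr] at b1 b2 b3 b4
    rcases h with h | h <;> constructor <;> linarith
  have v1 := vol_le (T := K ∩ {p | -1 ≤ p.1 ∧ p.1 ≤ 1}) (show (-1 : ℝ) ≤ 1 by norm_num) P.clo P.chi
    (fun x p q => by linarith [(pr x p q).2.2.2.2.1, (pr x p q).2.2.2.2.2.1])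
    (fun p hp => ⟨hp.2, ((P.mem p).1 hp.1).2⟩)
  have v2 := vol_le (T := Prod.swap ⁻¹' (K ∩ {p | 1 ≤ p.1})) (show (-1 : ℝ) ≤ 1 by norm_num)
    (f := fun _ => 1) continuous_const Q.chi (fun x p q => (pr x p q).2.2.2.2.2.2.1)
    (fun p hp => ⟨dia _ hp.1 (Or.inl hp.2), hp.2, ((Q.mem p).1 hp.1).2.2⟩)
  have v3 := vol_le (T := Prod.swap ⁻¹' (K ∩ {p | p.1 ≤ -1})) (show (-1 : ℝ) ≤ 1 by norm_num)
    (g := fun _ => -1) Q.clo continuous_const (fun x p q => (pr x p q).2.2.2.2.2.2.2)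
    (fun p hp => ⟨dia _ hp.1 (Or.inr hp.2), ((Q.mem p).1 hp.1).2.1, hp.2⟩)
  rw [vol_swap] at v2 v3
  have hsub : K ⊆ K ∩ {p | -1 ≤ p.1 ∧ p.1 ≤ 1} ∪ (K ∩ {p | 1 ≤ p.1} ∪ K ∩ {p | p.1 ≤ -1}) := by
    intro p hp
    rcases le_total p.1 (-1) with h | h
    · exact Or.inr (Or.inr ⟨hp, h⟩)
    rcases le_total p.1 1 with h' | h'
    · exact Or.inl ⟨hp, h, h'⟩
    · exact Or.inr (Or.inl ⟨hp, h'⟩)
  have n1 : 0 ≤ ∫ x in (-1 : ℝ)..1, (u x - l x) := intervalIntegral.integral_nonneg (by norm_num)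
    fun x hx => by linarith [(pr x hx.1 hx.2).2.2.2.2.1, (pr x hx.1 hx.2).2.2.2.2.2.1]
  have n2 : 0 ≤ ∫ x in (-1 : ℝ)..1, (R x - 1) := intervalIntegral.integral_nonneg (by norm_num)
    fun x hx => by linarith [(pr x hx.1 hx.2).2.2.2.2.2.2.1]
  have n3 : 0 ≤ ∫ x in (-1 : ℝ)..1, (-1 - L x) := intervalIntegral.integral_nonneg (by norm_num)
    fun x hx => by linarith [(pr x hx.1 hx.2).2.2.2.2.2.2.2]
  have tot := (measure_mono hsub).trans ((measure_union_le _ _).trans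
    (add_le_add v1 ((measure_union_le _ _).trans (add_le_add v2 v3))))
  rw [hV, ← ENNReal.ofReal_add n2 n3, ← ENNReal.ofReal_add n1 (add_nonneg n2 n3),
    ENNReal.ofReal_le_ofReal_iff (by linarith)] at tot
  have cR := Q.chi
  have cL := Q.clo
  have ca : Continuous fun x => u x - l x := P.chi.sub P.clo
  have cc : Continuous fun x => R x - L x := Q.chi.sub Q.clo
  have e1 : (∫ x in (-1 : ℝ)..1, (R x - 1)) + ∫ x in (-1 : ℝ)..1, (-1 - L x) =
      (∫ x in (-1 : ℝ)..1, (R x - L x)) - 4 := by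
    rw [intervalIntegral.integral_sub (Q.chi.intervalIntegrable _ _) (by simp),
      intervalIntegral.integral_sub (by simp) (Q.clo.intervalIntegrable _ _),
      intervalIntegral.integral_sub (Q.chi.intervalIntegrable _ _) (Q.clo.intervalIntegrable _ _)]
    simp only [intervalIntegral.integral_const, smul_eq_mul]
    ring
  have pw : ∀ x s, -1 ≤ x → x ≤ 1 → (s = x ∨ s = -x) → 0 ≤ s →
      u x - l x + (R (0 - x) - L (0 - x)) ≤ 6 - 3 * s / 4 - 9 * s ^ 2 / 8 := by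
    intro x s x0 x1 hsx s0
    obtain ⟨m1, m2, -, -, -, -, -, -⟩ := pr x x0 x1
    obtain ⟨-, -, m3, m4, -, -, -, -⟩ := pr (0 - x) (by linarith) (by linarith)
    have t1 := hq _ k1 _ m1
    have t2 := hq _ k4 _ m1
    have t3 := hq _ m2 _ k1
    have t4 := hq _ m2 _ k4
    have t5 := hq _ m3 _ k1
    have t6 := hq _ m3 _ k2
    have t7 := hq _ k1 _ m4
    have t8 := hq _ k2 _ m4
    have p1 := hq _ m3 _ m1
    have p2 := hq _ m4 _ m2
    simp only [cr] at t1 t2 t3 t4 t5 t6 t7 t8 p1 p2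
    have e2 : s ^ 2 = x ^ 2 := by rcases hsx with h | h <;> rw [h]; ring
    have s1 : s ≤ 1 := by rcases hsx with h | h <;> linarith
    have a1 := sum_AQ (G1 := R (0 - x)) (G2 := u x) (s := s)
      (by rcases hsx with h | h <;> linarith) (by rcases hsx with h | h <;> linarith)
      (by rw [e2]; linarith) s0 s1
    have a2 := sum_AQ (G1 := -L (0 - x)) (G2 := -l x) (s := s)
      (by rcases hsx with h | h <;> linarith) (by rcases hsx with h | h <;> linarith)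
      (by rw [e2]; linarith) s0 s1
    linarith
  have cf : Continuous fun x => u x - l x + (R (0 - x) - L (0 - x)) :=
    ca.add (cc.comp (by fun_prop))
  have i1 := int_le_quad cf (p := -1) (q := 0) (c0 := 6) (c1 := 3 / 4) (c2 := -9 / 8)
    (by norm_num) (fun x p q => by
      have := pw x (-x) p (by linarith) (Or.inr rfl) (by linarith)
      linarith)
  have i2 := int_le_quad cf (p := 0) (q := 1) (c0 := 6) (c1 := -3 / 4) (c2 := -9 / 8)
    (by norm_num) (fun x p q => by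
      have := pw x x (by linarith) q (Or.inl rfl) p
      linarith)
  have i3 := intervalIntegral.integral_add_adjacent_intervals (μ := volume)
    (cf.intervalIntegrable (-1) 0) (cf.intervalIntegrable 0 1)
  rw [intervalIntegral.integral_add (a := -1) (b := 1) (ca.intervalIntegrable _ _)
    (Continuous.intervalIntegrable (by fun_prop) _ _),
    intervalIntegral.integral_comp_sub_left (a := -1) (b := 1) (fun x => R x - L x),
    show (0 : ℝ) - 1 = -1 by ring, show (0 : ℝ) - -1 = 1 by ring] at i3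
  rw [e1] at tot
  linarith

end

section

open Filter Set MeasureTheory Metric

theorem near_abs_M5 {a a' c c' : ℝ} (a0 : 0 ≤ a) (a0' : 0 ≤ a') (c0 : 0 ≤ c) (c0' : 0 ≤ c')
    (a2 : a ≤ 2) (_a2' : a' ≤ 2) (c2 : c ≤ 2) (c2' : c' ≤ 2) (sa : a + a' ≤ 2.092)
    (sc : c + c' ≤ 2.092) (h : 3.98 ≤ a * c + a' * c') :
    (1.85 ≤ a ∧ 1.85 ≤ c) ∨ (1.85 ≤ a' ∧ 1.85 ≤ c') := by
  rcases le_total a' a with p | p
  · have hc : 1.85 ≤ c := by
      by_contra hc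
      push Not at hc
      nlinarith [mul_nonneg (sub_nonneg.2 p) (sub_nonneg.2 hc.le),
        mul_nonneg a0' (sub_nonneg.2 sc)]
    refine Or.inl ⟨?_, hc⟩
    by_contra ha
    push Not at ha
    nlinarith [mul_nonneg (show 0 ≤ c - c' by linarith) (sub_nonneg.2 ha.le),
      mul_nonneg c0' (sub_nonneg.2 sa)]
  · have hc : 1.85 ≤ c' := by
      by_contra hc
      push Not at hc
      nlinarith [mul_nonneg (sub_nonneg.2 p) (sub_nonneg.2 hc.le),
        mul_nonneg a0 (sub_nonneg.2 sc)]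
    refine Or.inr ⟨?_, hc⟩
    by_contra ha
    push Not at ha
    nlinarith [mul_nonneg (show 0 ≤ c' - c by linarith) (sub_nonneg.2 ha.le),
      mul_nonneg c0 (sub_nonneg.2 sa)]

theorem near_pair_M5 {K : Set (ℝ × ℝ)} {t : ℝ} (hs : ∀ x ∈ K, -x ∈ K) (k1 : ((1, 1) : ℝ × ℝ) ∈ K) (k2 : ((-1, 1) : ℝ × ℝ) ∈ K)
    (hq : ∀ a ∈ K, ∀ b ∈ K, cr a b ≤ 2)
    (ht : ∀ a ∈ K, ∀ b ∈ K, ∀ c ∈ K, cr (b - a) (c - a) ≤ 2 * t) (he : t - 2 ≤ 23 / 500)
    {A C : ℝ × ℝ} (hA : A ∈ K) (hC : C ∈ K) (h : 2 - 1 / 100 ≤ cr A C) :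
    (1.6 ≤ (A.1 + A.2) - (C.1 + C.2) ∧ (A.1 + A.2) - (C.1 + C.2) ≤ 2.25) ∨
      (-2.25 ≤ (A.1 + A.2) - (C.1 + C.2) ∧ (A.1 + A.2) - (C.1 + C.2) ≤ -1.6) := by
  have box : ∀ Z ∈ K, |Z.1 + Z.2| ≤ 2 ∧ |Z.1 - Z.2| ≤ 2 ∧ |Z.1 + Z.2| + |Z.1 - Z.2| ≤ 2.092 := by
    intro Z hZ
    have b1 := hq _ k1 _ hZ
    have b2 := hq _ hZ _ k1
    have b3 := hq _ k2 _ hZ
    have b4 := hq _ hZ _ k2
    have b5 := ht _ (hs _ k1) _ (hs _ k2) _ hZ
    have b6 := ht _ k1 _ k2 _ hZ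
    have b7 := ht _ k2 _ (hs _ k1) _ hZ
    have b8 := ht _ (hs _ k2) _ k1 _ hZ
    simp only [cr, Prod.fst_sub, Prod.snd_sub, Prod.fst_neg, Prod.snd_neg] at *
    refine ⟨abs_le.2 ⟨by linarith, by linarith⟩, abs_le.2 ⟨by linarith, by linarith⟩, ?_⟩
    rcases abs_cases (Z.1 + Z.2) with p | p <;> rcases abs_cases (Z.1 - Z.2) with q | q <;>
      rw [p.1, q.1] <;> norm_num <;> linarith
  obtain ⟨a1, a2, a3⟩ := box A hA
  obtain ⟨c1, c2, c3⟩ := box C hC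
  have key := near_abs_M5 (abs_nonneg (A.1 - A.2)) (abs_nonneg (A.1 + A.2)) (abs_nonneg (C.1 + C.2))
    (abs_nonneg (C.1 - C.2)) a2 a1 c1 c2 (by linarith) c3 (by
      rw [← abs_mul, ← abs_mul]
      have := le_abs_self ((A.1 - A.2) * (C.1 + C.2))
      have := neg_abs_le ((A.1 + A.2) * (C.1 - C.2))
      simp only [cr] at h
      rw [show (3.98 : ℝ) = 199 / 50 by norm_num]
      linarith)
  norm_num at key a3 c3 ⊢
  rcases abs_cases (A.1 + A.2) with p | p <;> rcases abs_cases (C.1 + C.2) with q | q <;>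
    rcases key with ⟨r1, r2⟩ | ⟨r1, r2⟩
  · right; constructor <;> linarith [p.1, q.1, p.2, q.2]
  · left; constructor <;> linarith [p.1, q.1, p.2, q.2]
  · left; constructor <;> linarith [p.1, q.1, p.2, q.2]
  · left; constructor <;> linarith [p.1, q.1, p.2, q.2]
  · right; constructor <;> linarith [p.1, q.1, p.2, q.2]
  · right; constructor <;> linarith [p.1, q.1, p.2, q.2]
  · left; constructor <;> linarith [p.1, q.1, p.2, q.2]
  · right; constructor <;> linarith [p.1, q.1, p.2, q.2]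
theorem five_M5 {a b c d e : ℝ} (ha : (1.6 ≤ a ∧ a ≤ 2.25) ∨ (-2.25 ≤ a ∧ a ≤ -1.6))
    (hb : (1.6 ≤ b ∧ b ≤ 2.25) ∨ (-2.25 ≤ b ∧ b ≤ -1.6))
    (hc : (1.6 ≤ c ∧ c ≤ 2.25) ∨ (-2.25 ≤ c ∧ c ≤ -1.6))
    (hd : (1.6 ≤ d ∧ d ≤ 2.25) ∨ (-2.25 ≤ d ∧ d ≤ -1.6))
    (he : (1.6 ≤ e ∧ e ≤ 2.25) ∨ (-2.25 ≤ e ∧ e ≤ -1.6)) (h : a + b + c + d + e = 0) : False := by
  rw [show (1.6 : ℝ) = 8 / 5 by norm_num, show (2.25 : ℝ) = 9 / 4 by norm_num] at ha hb hc hd he
  rcases ha with ⟨a1, a2⟩ | ⟨a1, a2⟩ <;> rcases hb with ⟨b1, b2⟩ | ⟨b1, b2⟩ <;>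
    rcases hc with ⟨c1, c2⟩ | ⟨c1, c2⟩ <;> rcases hd with ⟨d1, d2⟩ | ⟨d1, d2⟩ <;>
    rcases he with ⟨e1, e2⟩ | ⟨e1, e2⟩ <;> linarith

theorem sM5 : SM5 := by
  intro K V e N A1 hA1 C1 hC1 A2 hA2 C2 hC2 A3 hA3 C3 hC3 A4 hA4 C4 hC4 A5 hA5 C5 hC5 h0
  by_contra hlt
  push Not at hlt
  have v1 := N.area (w := 1) (by norm_num) (by norm_num)
  have v2 := N.area (w := 1 / 2) (by norm_num) (by norm_num)
  have v3 := N.area (w := 1 / 4) (by norm_num) (by norm_num)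
  have q1 := N.hq _ hA1 _ hC1
  have q2 := N.hq _ hA2 _ hC2
  have q3 := N.hq _ hA3 _ hC3
  have q4 := N.hq _ hA4 _ hC4
  have q5 := N.hq _ hA5 _ hC5
  have e0 := N.e0
  have e1 := N.e1
  have he1 : e ≤ 121 / 1000 := by
    by_contra hc
    push Not at hc
    nlinarith [mul_nonneg (sub_nonneg.2 hc.le) (sub_nonneg.2 e1)]
  have he2 : e ≤ 23 / 500 := by
    by_contra hc
    push Not at hc
    nlinarith [mul_nonneg (sub_nonneg.2 hc.le) (sub_nonneg.2 he1)]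
  have he : 2 + e - 2 ≤ 23 / 500 := by linarith
  have hsq : e ^ 2 ≤ (23 / 500) ^ 2 := pow_le_pow_left₀ e0 he2 2
  have s1 := congrArg Prod.fst h0
  have s2 := congrArg Prod.snd h0
  simp only [Prod.fst_add, Prod.snd_add, Prod.fst_sub, Prod.snd_sub, Prod.fst_zero,
    Prod.snd_zero] at s1 s2
  have u : 10 - 1 / 100 < cr A1 C1 + cr A2 C2 + cr A3 C3 + cr A4 C4 + cr A5 C5 := by linarith
  clear hlt v1 v2 v3 hsq
  exact five_M5 (near_pair_M5 N.sy N.k1 N.k2 N.hq N.ht he hA1 hC1 (by linarith))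
    (near_pair_M5 N.sy N.k1 N.k2 N.hq N.ht he hA2 hC2 (by linarith))
    (near_pair_M5 N.sy N.k1 N.k2 N.hq N.ht he hA3 hC3 (by linarith))
    (near_pair_M5 N.sy N.k1 N.k2 N.hq N.ht he hA4 hC4 (by linarith))
    (near_pair_M5 N.sy N.k1 N.k2 N.hq N.ht he hA5 hC5 (by linarith)) (by linarith)

end

section

open Filter Set MeasureTheory Metric

/-- The bound `B` for bodies with pointed ends and centres inside. -/
def Box_Core (K : Set (ℝ × ℝ)) (k : ℕ) (B : ℝ) : Prop :=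
  ∀ (C : Set (ℝ × ℝ)) (s0 s1 : ℝ) (L U σT σB : ℝ → ℝ), IsCompact C → Convex ℝ C →
    Prof C s0 s1 L U → s0 < s1 → L s0 = U s0 → L s1 = U s1 → Slopes s0 s1 L U σT σB →
    ∀ b : Fin k → ℝ × ℝ, (∀ i, b i ∈ C) → (∀ x ∈ C, ∃ i, x - b i ∈ K) →
      volume C ≤ ENNReal.ofReal B

theorem core_Core (h4 : SFour) {K : Set (ℝ × ℝ)} {w : ℝ} {l u : ℝ → ℝ} (hKc : IsCompact K)
    (hK : Convex ℝ K) (hs : ∀ x ∈ K, -x ∈ K) (P : Prof K (-w) w l u) {t η : ℝ} (t2 : 2 ≤ t)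
    (hη : η ≤ 2 * t) (ht : ∀ a ∈ K, ∀ b ∈ K, ∀ c ∈ K, cr (b - a) (c - a) ≤ 2 * t)
    (hq : ∀ a ∈ K, ∀ b ∈ K, cr a b ≤ 2) (hstar : SeamStar K w l u)
    (h3 : M3 K ((∫ ξ in (-w)..w, (u ξ - l ξ)) + η) t)
    (h5 : M5 K ((∫ ξ in (-w)..w, (u ξ - l ξ)) + η) t)
    (hJ : ∀ A ∈ K, ∀ C ∈ K, ∀ A' ∈ K, ∀ C' ∈ K, (∫ ξ in (-w)..w, (u ξ - l ξ)) +
      cr (C - A) (C' - A') + 2 * cr A C + 2 * cr A' C' ≤ 8 * t - η)
    (h6 : (∫ ξ in (-w)..w, (u ξ - l ξ)) + η ≤ 8 * t - 12)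
    (h2 : ∀ D : Set (ℝ × ℝ), Convex ℝ D → ∀ b1 b2 : ℝ × ℝ, (∀ x ∈ D, x - b1 ∈ K ∨ x - b2 ∈ K) →
      volume D ≤ ENNReal.ofReal (4 * t - η))
    {k : ℕ} (hk : 3 ≤ k) : Box_Core K k (2 * k * t - η) := by
  intro C s0 s1 L U σT σB hCc hC PC h01 e0 e1 Sl b hb hcov
  have t0 : 0 ≤ t := by linarith
  have hk' : (3 : ℝ) ≤ k := by exact_mod_cast hk
  have hkt : 3 * t ≤ k * t := mul_le_mul_of_nonneg_right hk' t0
  let S : Fin k → Set (ℝ × ℝ) := fun i => {x | x - b i ∈ K}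
  have vS : ∀ i, Convex ℝ (S i) := by
    intro i x hx y hy p q hp hq0 hpq
    have h := hK hx hy hp hq0 hpq
    have e : p • (x - b i) + q • (y - b i) = p • x + q • y - b i := by
      have : q = 1 - p := by linarith
      subst this
      ext <;> simp <;> ring
    rw [e] at h
    exact h
  have tS : ∀ i, ∀ x ∈ S i, ∀ y ∈ S i, ∀ z ∈ S i, cr (y - x) (z - x) ≤ 2 * t := by
    intro i x hx y hy z hz
    simpa only [sub_sub_sub_cancel_right] using ht _ hx _ hy _ hz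
  by_cases hn : ∃ i, C ⊆ S i
  · obtain ⟨i, hi⟩ := hn
    refine (measure_mono hi).trans ?_
    have : volume (S i) = volume K := by
      rw [← measure_preimage_add_right volume (-b i) K]
      simp only [S, ← sub_eq_add_neg]
      rfl
    rw [this]
    exact (vol_le_four hKc hK t0 ht).trans (ENNReal.ofReal_le_ofReal (by linarith))
  push Not at hn
  by_cases hfat : ∃ x, s0 < x ∧ x < s1 ∧ L x = U x
  · obtain ⟨x, x0, x1, hx⟩ := hfat
    rw [thin hC PC x0 x1 hx]; exact zero_le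
  push Not at hfat
  obtain ⟨z, W, hW, hcount⟩ := sweep hK P hC PC h01 e0 e1 hcov t0 ht
  obtain ⟨π, hπ⟩ := exists_pi hKc b
  have main := walk_ineq P hs PC h01 e1 Sl hstar hb (fun i j A hA C hC h => (hπ i j A hA C hC h).1) hW
  have pair : ∀ i j τ, bcov K s1 L U b i τ → bcov K s1 L U b j τ →
      ∃ A' ∈ K, ∃ C' ∈ K, A' - C' = b j - b i ∧ cr A' C' = π j i := fun i j τ hi hj =>
    (hπ i j _ hi _ hj (by abel)).2
  set V := ∫ ξ in (-w)..w, (u ξ - l ξ) with hV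
  rw [Fintype.card_fin] at hcount
  have fin : 2 * ∫ x in s0..s1, (U x - L x) ≤ 4 * k * t - 2 * η →
      volume C ≤ ENNReal.ofReal (2 * k * t - η) :=
    fun h => by rw [PC.vol]; exact ENNReal.ofReal_le_ofReal (by linarith)
  match W, hW, hcount, main with
  | [], hW, _, _ => exact absurd (all_in PC e1 (vS z) hW.2.2) (hn z)
  | [p], hW, _, _ => exact absurd hW.2.2.2.2.1.symm hW.2.1
  | [p1, p2], ⟨a1, _, c1, a2, _, c2, a3, e, c3⟩, _, _ =>
    subst e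
    exact (two_seams hCc hC PC e1 hfat (by linarith) (vS _) (vS _) (tS _) (tS _) (hn _) (hn _)
      a1 a2 a3 c1 c2 c3).trans (ENNReal.ofReal_le_ofReal (by linarith))
  | [p1, p2, p3], ⟨a1, _, c1, a2, _, c2, a3, _, c3, a4, e, c4⟩, _, main =>
    subst e
    obtain ⟨A1, hA1, C1, hC1, d1, q1⟩ := pair _ _ _ (c1 _ a1 le_rfl) (c2 _ le_rfl a2)
    obtain ⟨A2, hA2, C2, hC2, d2, q2⟩ := pair _ _ _ (c2 _ a2 le_rfl) (c3 _ le_rfl a3)
    obtain ⟨A3, hA3, C3, hC3, d3, q3⟩ := pair _ _ _ (c3 _ a3 le_rfl) (c4 _ le_rfl a4)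
    have := h3 A1 hA1 C1 hC1 A2 hA2 C2 hC2 A3 hA3 C3 hC3 (by rw [d1, d2, d3]; abel)
    rw [d1, d2, q1, q2, q3] at this
    simp only [List.map_cons, List.map_nil, cs, om, cr, Prod.fst_sub, Prod.snd_sub] at main this
    exact fin (by linarith)
  | [p1, p2, p3, p4], ⟨a1, n1, c1, a2, n2, c2, a3, n3, c3, a4, n4, c4, a5, e, c5⟩, _, main =>
    subst e
    rcases Nat.lt_or_ge k 4 with hk4 | hk4
    · have hrep : p4.2 = p2.2 ∨ p1.2 = p3.2 := by
        have := p1.2.2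
        have := p2.2.2
        have := p3.2.2
        have := p4.2.2
        rw [Ne, Fin.ext_iff] at n1 n2 n3 n4
        rw [Fin.ext_iff, Fin.ext_iff]
        omega
      refine (h4 C s0 s1 L U σT σB hCc hC PC e1 Sl hfat (2 * t) η (by linarith) hη
        (fun T => ∃ i, T = S i) ?_ ?_ _ _ _ _ ⟨_, rfl⟩ ⟨_, rfl⟩ ⟨_, rfl⟩ ⟨_, rfl⟩ _ _ _ _
        a1 a2 a3 a4 a5 c1 c2 c3 c4 c5 (hrep.imp (congrArg S) (congrArg S))).trans
        (ENNReal.ofReal_le_ofReal (by linarith))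
      · rintro _ ⟨i, rfl⟩
        exact ⟨vS i, tS i, hn i⟩
      · rintro _ _ ⟨i, rfl⟩ ⟨j, rfl⟩ D hD hsub
        rw [show 2 * (2 * t) - η = 4 * t - η by ring]
        exact h2 D hD (b i) (b j) fun x hx => hsub hx
    · obtain ⟨A1, hA1, C1, hC1, d1, q1⟩ := pair _ _ _ (c1 _ a1 le_rfl) (c2 _ le_rfl a2)
      obtain ⟨A2, hA2, C2, hC2, d2, q2⟩ := pair _ _ _ (c2 _ a2 le_rfl) (c3 _ le_rfl a3)
      obtain ⟨A3, hA3, C3, hC3, d3, q3⟩ := pair _ _ _ (c3 _ a3 le_rfl) (c4 _ le_rfl a4)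
      obtain ⟨A4, hA4, C4, hC4, d4, q4⟩ := pair _ _ _ (c4 _ a4 le_rfl) (c5 _ le_rfl a5)
      have j1 := hJ _ hA2 _ hC2 _ hA1 _ hC1
      have j2 := hJ _ hA4 _ hC4 _ hA3 _ hC3
      rw [← neg_sub A1, ← neg_sub A2, d1, d2, q1, q2] at j1
      rw [← neg_sub A3, ← neg_sub A4, d3, d4, q3, q4] at j2
      have hk4' : 4 * t ≤ k * t := mul_le_mul_of_nonneg_right (by exact_mod_cast hk4) t0
      simp only [List.map_cons, List.map_nil, cs, om, cr, Prod.fst_sub, Prod.snd_sub, Prod.fst_neg,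
        Prod.snd_neg] at main j1 j2
      exact fin (by linarith)
  | [p1, p2, p3, p4, p5],
      ⟨a1, _, c1, a2, _, c2, a3, _, c3, a4, _, c4, a5, _, c5, a6, e, c6⟩, hcount, main =>
    subst e
    obtain ⟨A1, hA1, C1, hC1, d1, q1⟩ := pair _ _ _ (c1 _ a1 le_rfl) (c2 _ le_rfl a2)
    obtain ⟨A2, hA2, C2, hC2, d2, q2⟩ := pair _ _ _ (c2 _ a2 le_rfl) (c3 _ le_rfl a3)
    obtain ⟨A3, hA3, C3, hC3, d3, q3⟩ := pair _ _ _ (c3 _ a3 le_rfl) (c4 _ le_rfl a4)
    obtain ⟨A4, hA4, C4, hC4, d4, q4⟩ := pair _ _ _ (c4 _ a4 le_rfl) (c5 _ le_rfl a5)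
    obtain ⟨A5, hA5, C5, hC5, d5, q5⟩ := pair _ _ _ (c5 _ a5 le_rfl) (c6 _ le_rfl a6)
    have := h5 A1 hA1 C1 hC1 A2 hA2 C2 hC2 A3 hA3 C3 hC3 A4 hA4 C4 hC4 A5 hA5 C5 hC5
      (by rw [d1, d2, d3, d4, d5]; abel)
    rw [q1, q2, q3, q4, q5] at this
    simp only [List.map_cons, List.map_nil, cs, List.length_cons, List.length_nil] at main hcount
    push_cast at hcount
    exact fin (by linarith)
  | p1 :: p2 :: p3 :: p4 :: p5 :: p6 :: W', hW, hcount, main =>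
    have hr := cs_le (π := π) (r := 2) (fun i j τ hi hj => by
      obtain ⟨A, hA, C, hC, -, q⟩ := pair i j τ hi hj
      rw [← q]
      exact hq _ hA _ hC) hW
    have hm : (6 : ℝ) ≤ (p1 :: p2 :: p3 :: p4 :: p5 :: p6 :: W').length := by
      simp only [List.length_cons]; push_cast; linarith [Nat.cast_nonneg (α := ℝ) W'.length]
    refine fin ?_
    generalize ((p1 :: p2 :: p3 :: p4 :: p5 :: p6 :: W').length : ℝ) = m at *
    have := mul_nonneg (sub_nonneg.2 hm) (sub_nonneg.2 t2)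
    linarith

theorem cone_Core {K C : Set (ℝ × ℝ)} (hKc : IsCompact K) (hK : Convex ℝ K)
    (hs : ∀ x ∈ K, -x ∈ K) {k : ℕ} {B : ℝ} (H : Box_Core K k B)
    (hCc : IsCompact C) (hC : Convex ℝ C) {s0 s1 y0 y1 M : ℝ} (h01 : s0 < s1)
    (m0 : (s0, y0) ∈ C) (m1 : (s1, y1) ∈ C)
    (c0 : ∀ p ∈ C, |p.2 - y0| ≤ M * (p.1 - s0)) (c1 : ∀ p ∈ C, |p.2 - y1| ≤ M * (s1 - p.1))
    (hM : 0 < M) {b : Fin k → ℝ × ℝ} (hcov : ∀ x ∈ C, ∃ i, x - b i ∈ K) :
    volume C ≤ ENNReal.ofReal B := by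
  obtain ⟨a, c, L, U, PC⟩ := exists_prof hCc hC ⟨_, m0⟩
  have ea : a = s0 := by
    have h1 := ((PC.mem _).1 m0).1.1
    have h2 := (abs_nonneg _).trans (c0 _ (PC.hi_mem le_rfl PC.le))
    have := nonneg_of_mul_nonneg_right h2 hM
    simp only at h1 this
    linarith
  have ec : c = s1 := by
    have h1 := ((PC.mem _).1 m1).1.2
    have h2 := (abs_nonneg _).trans (c1 _ (PC.hi_mem PC.le le_rfl))
    have := nonneg_of_mul_nonneg_right h2 hM
    simp only at h1 this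
    linarith
  subst ea ec
  have u0 : U a = y0 := by simpa [sub_eq_zero] using c0 _ (PC.hi_mem le_rfl PC.le)
  have l0 : L a = y0 := by simpa [sub_eq_zero] using c0 _ (PC.lo_mem le_rfl PC.le)
  have u1 : U c = y1 := by simpa [sub_eq_zero] using c1 _ (PC.hi_mem PC.le le_rfl)
  have l1 : L c = y1 := by simpa [sub_eq_zero] using c1 _ (PC.lo_mem PC.le le_rfl)
  obtain ⟨σT, hT⟩ := exists_slope (f := U) (a := a) (b := c) (M := M) (fun x s y p q r v => by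
      have := three_top hC PC (PC.hi_mem p (by linarith)) (PC.hi_mem (x := y) (by linarith) v) q r
      simp only [cr, Prod.fst_sub, Prod.snd_sub] at this
      linarith)
    (fun x p q => by linarith [(abs_le.1 (c0 _ (PC.hi_mem p q))).2])
    (fun x p q => by linarith [(abs_le.1 (c1 _ (PC.hi_mem p q))).2])
  obtain ⟨σB, hB⟩ := exists_slope (f := fun x => -L x) (a := a) (b := c) (M := M)
    (fun x s y p q r v => by
      have := three_bot hC PC (PC.lo_mem p (by linarith)) (PC.lo_mem (x := y) (by linarith) v) q r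
      simp only [cr, Prod.fst_sub, Prod.snd_sub] at this
      linarith)
    (fun x p q => by linarith [(abs_le.1 (c0 _ (PC.lo_mem p q))).1])
    (fun x p q => by linarith [(abs_le.1 (c1 _ (PC.lo_mem p q))).1])
  choose b' hb' hb2 using fun i => exists_centre_mem hKc hK hs hCc hC ⟨_, m0⟩ (b i)
  exact H C _ _ L U σT (fun s => -σB s) hCc hC PC h01
    (l0.trans u0.symm) (l1.trans u1.symm)
    ⟨hT, fun s p q x r v => by linarith [hB s p q x r v]⟩ b' hb'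
    (fun x hx => (hcov x hx).imp fun i hi => hb2 i x hx hi)

theorem all_Core {K C : Set (ℝ × ℝ)} (hKc : IsCompact K) (hK : Convex ℝ K)
    (hs : ∀ x ∈ K, -x ∈ K) {k : ℕ} {B : ℝ} (H : Box_Core K k B)
    (hCc : IsCompact C) (hC : Convex ℝ C) (hne : C.Nonempty)
    {b : Fin k → ℝ × ℝ} (hcov : ∀ x ∈ C, ∃ i, x - b i ∈ K) :
    volume C ≤ ENNReal.ofReal B := by
  obtain ⟨s0, s1, L, U, PC⟩ := exists_prof hCc hC hne
  rcases eq_or_lt_of_le PC.le with h01 | h01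
  · rw [PC.vol, h01]; simp
  obtain ⟨R0, hR0⟩ := hCc.isBounded.exists_norm_le
  have hR : ∀ p ∈ C, ∀ q ∈ C, |p.2 - q.2| ≤ 2 * R0 := by
    intro p hp q hq
    have a1 := abs_le.1 ((norm_snd_le p).trans (hR0 p hp))
    have a2 := abs_le.1 ((norm_snd_le q).trans (hR0 q hq))
    rw [abs_le]; constructor <;> linarith [a1.1, a1.2, a2.1, a2.2]
  set R := 2 * R0 with hRdef
  have m0 := PC.lo_mem le_rfl PC.le
  have m1 := PC.lo_mem PC.le le_rfl
  have R0' : 0 ≤ R := (abs_nonneg _).trans (hR _ m0 _ m0)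
  refine ENNReal.le_of_forall_pos_le_add fun ε hε _ => ?_
  have hε' : (0 : ℝ) < ε := hε
  obtain ⟨M, hM, M1, M2⟩ : ∃ M : ℝ, 0 < M ∧ R ≤ M * (s1 - s0) ∧ 4 * R ^ 2 ≤ M * ε := by
    have d : 0 < s1 - s0 := by linarith
    refine ⟨R / (s1 - s0) + 4 * R ^ 2 / ε + 1, by positivity, ?_, ?_⟩
    · have : 0 ≤ 4 * R ^ 2 / ε * (s1 - s0) := by positivity
      rw [add_mul, add_mul, div_mul_cancel₀ _ d.ne']; linarith
    · have : 0 ≤ R / (s1 - s0) * ε := by positivity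
      rw [add_mul, add_mul, div_mul_cancel₀ _ hε'.ne']; linarith
  let C' := C ∩ ({p | |p.2 - L s0| ≤ M * (p.1 - s0)} ∩ {p | |p.2 - L s1| ≤ M * (s1 - p.1)})
  have key := cone_Core (C := C') hKc hK hs H
    (hCc.inter_right ((isClosed_le (by fun_prop) (by fun_prop)).inter
      (isClosed_le (by fun_prop) (by fun_prop))))
    (hC.inter (by
      rintro x ⟨x1, x2⟩ y ⟨y1, y2⟩ p q hp hq hpq
      have : q = 1 - p := by linarith
      subst this
      simp only [mem_ofPred_eq, abs_le] at x1 x2 y1 y2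
      refine ⟨?_, ?_⟩ <;>
        simp only [mem_ofPred_eq, abs_le, Prod.fst_add, Prod.snd_add, Prod.smul_fst, Prod.smul_snd,
          smul_eq_mul] <;> constructor <;>
        nlinarith [mul_le_mul_of_nonneg_left x1.1 hp, mul_le_mul_of_nonneg_left x1.2 hp,
          mul_le_mul_of_nonneg_left x2.1 hp, mul_le_mul_of_nonneg_left x2.2 hp,
          mul_le_mul_of_nonneg_left y1.1 hq, mul_le_mul_of_nonneg_left y1.2 hq,
          mul_le_mul_of_nonneg_left y2.1 hq, mul_le_mul_of_nonneg_left y2.2 hq]))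
    h01 (y0 := L s0) (y1 := L s1) (M := M)
    ⟨m0, by simp, (hR _ m0 _ m1).trans M1⟩ ⟨m1, (hR _ m1 _ m0).trans M1, by simp⟩
    (fun p hp => hp.2.1) (fun p hp => hp.2.2) hM (b := b) (fun x hx => hcov x hx.1)
  have hsub : C ⊆ C' ∪ (Icc s0 (s0 + R / M) ×ˢ Icc (L s0 - R) (L s0 + R) ∪
      Icc (s1 - R / M) s1 ×ˢ Icc (L s1 - R) (L s1 + R)) := by
    intro p hp
    have hm := ((PC.mem p).1 hp).1
    have a0 := hR _ hp _ m0
    have a1 := hR _ hp _ m1
    by_cases q0 : p.1 ≤ s0 + R / M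
    · exact Or.inr (Or.inl ⟨⟨hm.1, q0⟩, by linarith [(abs_le.1 a0).1], by linarith [(abs_le.1 a0).2]⟩)
    by_cases q1 : s1 - R / M ≤ p.1
    · exact Or.inr (Or.inr ⟨⟨q1, hm.2⟩, by linarith [(abs_le.1 a1).1], by linarith [(abs_le.1 a1).2]⟩)
    push Not at q0 q1
    refine Or.inl ⟨hp, a0.trans ?_, a1.trans ?_⟩
    · rw [mul_comm, ← div_le_iff₀ hM]; linarith
    · rw [mul_comm, ← div_le_iff₀ hM]; linarith
  have hd : 0 ≤ R / M := div_nonneg R0' hM.le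
  refine (measure_mono hsub).trans ((measure_union_le _ _).trans (add_le_add key
    ((measure_union_le _ _).trans ?_)))
  rw [vol_box _ _ _ _ (by linarith), vol_box _ _ _ _ (by linarith),
    ← ENNReal.ofReal_add (by nlinarith) (by nlinarith), ← ENNReal.ofReal_coe_nnreal]
  refine ENNReal.ofReal_le_ofReal ?_
  have : 4 * R ^ 2 / M ≤ ε := by rw [div_le_iff₀ hM]; linarith
  calc _ = 4 * R ^ 2 / M := by ring
    _ ≤ ε := this

theorem sFin (hJ : SJ2) (hA : SAQ) (h5 : SM5) (h4 : SFour) (h2 : STwo) : SFin := by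
  intro K V e N k hk C hCc hC b hcov
  rcases eq_or_lt_of_le hk with rfl | hk3
  · have := h2 K V e N C hC (b 0) (b 1) fun x hx => Fin.exists_fin_two.1 (hcov x hx)
    refine this.trans (ENNReal.ofReal_le_ofReal ?_)
    push_cast
    linarith
  rcases C.eq_empty_or_nonempty with rfl | hne
  · simp
  obtain ⟨w, l, u, P⟩ := exists_prof_symm N.cp N.cv ⟨_, N.k1⟩ N.sy
  have N' : Nm K (∫ ξ in (-w)..w, (u ξ - l ξ)) e := { N with hV := P.vol }
  have e0 := N.e0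
  have e1 := N.e1
  have a1 := N'.area zero_le_one le_rfl
  have ae := N'.area e0 e1
  have aq := hA K _ e N'
  have ee : e ^ 2 ≤ e := by nlinarith
  refine all_Core N.cp N.cv N.sy (core_Core h4 N.cp N.cv N.sy P (t := 2 + e) (η := 2 * e ^ 2)
    (by linarith) (by linarith) N.ht N.hq
    (fun A hA C hC σ _ _ => pot_seam_star N.cp N.cv N.sy P σ hA hC)
    (M3_two N.ht N.hq ?_) (h5 K _ e N') (hJ K _ e N') ?_ (h2 K V e N) hk3) hCc hC hne hcov
  · rcases le_total e (1 / 2) with h | h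
    · nlinarith
    · nlinarith [mul_nonneg (sub_nonneg.2 h) (sub_nonneg.2 e1)]
  · nlinarith [mul_nonneg (sq_nonneg e) (sub_nonneg.2 e1)]

end

section

open Filter Set MeasureTheory Metric

theorem par_Area (c x y z : E2) :
    par x y z = |cr (toP (y - c) - toP (x - c)) (toP (z - c) - toP (x - c))| := by
  have e : ∀ p : E2, toP p = (p 0, p 1) := fun _ => rfl
  simp only [par, cr, e, Prod.fst_sub, Prod.snd_sub, PiLp.sub_apply]
  congr 1
  ring

theorem sArea (h : SFin) : SArea := by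
  rintro K ⟨hKc, hK, hKi⟩ ⟨c, hc⟩
  set K₀ : Set E2 := (fun x => x - c) '' K with hK₀
  set K' : Set (ℝ × ℝ) := toP '' K₀ with hK'
  have hmem : ∀ x ∈ K, toP (x - c) ∈ K' := fun x hx => ⟨_, ⟨x, hx, rfl⟩, rfl⟩
  have hsur : ∀ p ∈ K', ∃ x ∈ K, toP (x - c) = p := by
    rintro _ ⟨_, ⟨x, hx, rfl⟩, rfl⟩
    exact ⟨x, hx, rfl⟩
  have hK'c : IsCompact K' := (hKc.image (by fun_prop)).image toP.continuous
  have hK₀v : Convex ℝ K₀ := by
    have := hK.translate (-c)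
    have e : (fun x : E2 => x - c) = fun x => -c + x := funext fun x => sub_eq_neg_add x c
    rw [hK₀, e]
    exact this
  have hK'v : Convex ℝ K' := hK₀v.linear_image toP.toLinearEquiv.toLinearMap
  have hK'i : (interior K').Nonempty := by
    apply interior_image_toP
    obtain ⟨x, hx⟩ := hKi
    have h := (Homeomorph.subRight c).image_interior K
    have h2 : Homeomorph.subRight c x ∈ Homeomorph.subRight c '' interior K := ⟨x, hx, rfl⟩
    rw [h] at h2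
    exact ⟨_, h2⟩
  have hK's : ∀ x ∈ K', -x ∈ K' := by
    rintro _ ⟨_, ⟨y, hy, rfl⟩, rfl⟩
    have := hmem _ (hc y hy)
    convert this using 1
    rw [← map_neg]
    congr 1
    module
  obtain ⟨u, hu, v, hv, w, hw, hD, hmax⟩ := exists_max_triangle hK'c hK'i
  have hid : cr (v - u) (w - u) = cr u v + cr v w + cr w u := by
    simp only [cr, Prod.fst_sub, Prod.snd_sub]
    ring
  obtain ⟨D, hDdef⟩ : ∃ D, D = cr (v - u) (w - u) := ⟨_, rfl⟩
  rw [← hDdef] at hD hmax hid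
  rcases exists_normal hK'c ⟨u, hu⟩ with h0 | ⟨p, q, hd, k1, k2, hq⟩
  · linarith [h0 u hu v hv, h0 v hv w hw, h0 w hw u hu]
  obtain ⟨δ, hδ⟩ : ∃ δ, δ = cr p q := ⟨_, rfl⟩
  have hq' : ∀ a ∈ K', ∀ b ∈ K', cr a b ≤ 2 / δ := fun a ha b hb => by
    have := hq _ ⟨a, ha, rfl⟩ _ ⟨b, hb, rfl⟩
    rw [cr_lin] at this
    rw [hδ, le_div_iff₀ hd]
    linarith
  obtain ⟨a0, ha0, e1⟩ := k1
  obtain ⟨b0, hb0, e2⟩ := k2
  have hab : cr a0 b0 = 2 / δ := by
    have := cr_lin p q a0 b0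
    rw [e1, e2] at this
    rw [hδ, eq_div_iff hd.ne']
    simp only [cr] at this ⊢
    linarith
  have hδ0 : 0 < δ := hδ ▸ hd
  have e4 : 4 / δ = 2 * (2 / δ) := by ring
  have hP0 : 0 < 4 / δ := by positivity
  have hPH : 4 / δ ≤ D := by
    have := hmax _ (hK's _ ha0) _ (hK's _ hb0) _ ha0
    have e : cr (-b0 - -a0) (a0 - -a0) = 2 * cr a0 b0 := by
      simp only [cr, Prod.fst_sub, Prod.snd_sub, Prod.fst_neg, Prod.snd_neg]
      ring
    linarith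
  have hHP : 2 * D ≤ 3 * (4 / δ) := by
    linarith [hq' u hu v hv, hq' v hv w hw, hq' w hw u hu]
  refine ⟨D, 4 / δ, ⟨?_, ?_⟩, ⟨?_, ?_⟩, hP0, hPH, hHP, fun k hk C hC b hcov => ?_⟩
  · obtain ⟨x, hx, rfl⟩ := hsur u hu
    obtain ⟨y, hy, rfl⟩ := hsur v hv
    obtain ⟨z, hz, rfl⟩ := hsur w hw
    exact ⟨x, hx, y, hy, z, hz, by rw [par_Area c, ← hDdef, abs_of_pos hD]⟩
  · rintro _ ⟨x, hx, y, hy, z, hz, rfl⟩
    rw [par_Area c, abs_le]
    have h1 := hmax _ (hmem x hx) _ (hmem y hy) _ (hmem z hz)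
    have h2 := hmax _ (hmem x hx) _ (hmem z hz) _ (hmem y hy)
    simp only [cr] at h1 h2 ⊢
    constructor <;> linarith
  · obtain ⟨x, hx, ex⟩ := hsur _ (hK's _ ha0)
    obtain ⟨y, hy, ey⟩ := hsur _ (hK's _ hb0)
    obtain ⟨z, hz, ez⟩ := hsur _ hb0
    obtain ⟨t, ht, et⟩ := hsur _ ha0
    refine ⟨x, hx, y, hy, z, hz, ?_, ?_⟩
    · have : toP (y + z - x - c) = toP (t - c) := by
        rw [show y + z - x - c = (y - c) + (z - c) - (x - c) by abel, map_sub, map_add, ex, ey,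
          ez, et]
        abel
      rwa [sub_left_injective (toP.injective this)]
    · have e : cr (-b0 - -a0) (b0 - -a0) = 2 * cr a0 b0 := by
        simp only [cr, Prod.fst_sub, Prod.snd_sub, Prod.fst_neg, Prod.snd_neg]
        ring
      rw [par_Area c, ex, ey, ez, e, hab, ← e4, abs_of_pos hP0]
  · rintro _ ⟨x, hx, y, hy, z, hz, ht, rfl⟩
    have h1 := half_sub_mem hK'v hK's (hmem _ ht) (hmem x hx)
    have h2 := half_sub_mem hK'v hK's (hmem z hz) (hmem y hy)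
    rw [show y + z - x - c = (y - c) + (z - c) - (x - c) by abel, map_sub toP (y - c + (z - c)),
      map_add] at h1
    have h3 := hq' _ h1 _ h2
    have h4 := hq' _ h2 _ h1
    rw [par_Area c, abs_le]
    simp only [cr, Prod.fst_sub, Prod.snd_sub, Prod.fst_add, Prod.snd_add, Prod.smul_fst,
      Prod.smul_snd, smul_eq_mul] at h3 h4 ⊢
    constructor <;> linarith
  · have hl := (lin p q).continuous_of_finiteDimensional
    have e5 : δ * (4 / δ) = 4 := by field_simp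
    have hN : Nm (lin p q '' K') (volume (lin p q '' K')).toReal (δ * D / 2 - 2) :=
      { cp := hK'c.image hl
        cv := hK'v.linear_image _
        sy := by
          rintro _ ⟨a, ha, rfl⟩
          exact ⟨-a, hK's a ha, map_neg _ _⟩
        k1 := ⟨a0, ha0, e1⟩
        k2 := ⟨b0, hb0, e2⟩
        hq := hq
        ht := by
          rintro _ ⟨a, ha, rfl⟩ _ ⟨b, hb, rfl⟩ _ ⟨c, hc, rfl⟩
          rw [← map_sub, ← map_sub, cr_lin, ← hδ]
          nlinarith [hmax a ha b hb c hc]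
        e0 := by nlinarith
        e1 := by nlinarith
        hV := (ENNReal.ofReal_toReal (hK'c.image hl).measure_lt_top.ne).symm }
    have hvol := h _ _ _ hN k hk (lin p q '' (toP '' C)) ((hC.1.image toP.continuous).image hl)
      ((hC.2.1.linear_image toP.toLinearEquiv.toLinearMap).linear_image _)
      (fun i => lin p q (toP (b i + c))) (by
        rintro _ ⟨_, ⟨x, hx, rfl⟩, rfl⟩
        obtain ⟨i, y, hy, rfl⟩ := mem_iUnion.1 (hcov hx)
        refine ⟨i, _, hmem y hy, ?_⟩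
        rw [← map_sub, ← map_sub]
        congr 2
        simp only
        abel)
    rw [volume_image_lin, volume_image_toP, ← hδ, abs_of_pos hδ0,
      show 2 * (k : ℝ) * (2 + (δ * D / 2 - 2)) - 2 * (δ * D / 2 - 2) ^ 2 =
        δ * (k * D - 2 * (D - 4 / δ) ^ 2 / (4 / δ)) by field_simp; ring,
      ENNReal.ofReal_mul hδ0.le] at hvol
    exact (ENNReal.mul_le_mul_iff_right (by simpa using hδ0) ENNReal.ofReal_ne_top).1 hvol

end

section

open Filter Set MeasureTheory Metric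

theorem sLat : SLat := by
  rintro K H ⟨hKc, hK, hKi⟩ ⟨c, hc⟩ ⟨⟨x, hx, y, hy, z, hz, hH⟩, -⟩ hH0
  refine (lit_le hKc hKi).trans ?_
  set K₀ : Set E2 := (fun x => x - c) '' K with hK₀
  set K' : Set (ℝ × ℝ) := toP '' K₀ with hK'
  have hmem : ∀ x : E2, toP (x - c) ∈ K' ↔ x ∈ K := by
    intro x
    constructor
    · rintro ⟨_, ⟨y, hy, rfl⟩, h⟩
      have := toP.injective h
      rwa [← sub_left_injective this]
    · intro hx
      exact ⟨_, ⟨x, hx, rfl⟩, rfl⟩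
  have hK₀v : Convex ℝ K₀ := by
    have := hK.translate (-c)
    have e : (fun x : E2 => x - c) = fun x => -c + x := funext fun x => sub_eq_neg_add x c
    rw [hK₀, e]
    exact this
  have hK'v : Convex ℝ K' := hK₀v.linear_image toP.toLinearEquiv.toLinearMap
  have hK's : ∀ x ∈ K', -x ∈ K' := by
    rintro _ ⟨_, ⟨y, hy, rfl⟩, rfl⟩
    have := (hmem _).2 (hc y hy)
    convert this using 1
    rw [← map_neg]
    congr 1
    module
  have hp : ∀ a : E2, toP (a - c) = (a 0 - c 0, a 1 - c 1) := fun a => rfl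
  obtain ⟨u, hu, v, hv, w, hw, hDH⟩ : ∃ u ∈ K', ∃ v ∈ K', ∃ w ∈ K', cr (v - u) (w - u) = H := by
    rw [par] at hH
    rcases abs_cases ((y 0 - x 0) * (z 1 - x 1) - (y 1 - x 1) * (z 0 - x 0)) with h | h
    · refine ⟨_, (hmem x).2 hx, _, (hmem y).2 hy, _, (hmem z).2 hz, ?_⟩
      rw [hH, h.1]
      simp only [hp, cr, Prod.fst_sub, Prod.snd_sub]
      ring
    · refine ⟨_, (hmem x).2 hx, _, (hmem z).2 hz, _, (hmem y).2 hy, ?_⟩
      rw [hH, h.1]
      simp only [hp, cr, Prod.fst_sub, Prod.snd_sub]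
      ring
  subst hDH
  set T : Set E2 :=
    Set.range fun j : ℤ × ℤ => toP.symm (lin (v - u) (w - u) ((j.1 : ℝ), (j.2 : ℝ))) - c with hT
  have hTcov : (⋃ s ∈ T, (fun x => s + x) '' K) = Set.univ := by
    rw [Set.eq_univ_iff_forall]
    intro x
    obtain ⟨j, hj⟩ := lattice_cover hK'v hK's hu hv hw hH0.ne' (toP x)
    simp only [mem_iUnion]
    refine ⟨_, ⟨j, rfl⟩, x - (toP.symm (lin (v - u) (w - u) ((j.1 : ℝ), (j.2 : ℝ))) - c), ?_,
      by simp⟩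
    rw [← hmem]
    convert hj using 1
    simp only [map_sub, ContinuousLinearEquiv.apply_symm_apply]
    abel
  refine (iInf₂_le T hTcov).trans ?_
  exact liminf_le_of_count hKc.measure_lt_top.ne hH0
    (fun r => count_le (v - u) (w - u) hH0 c r)

end

section

open Filter Set MeasureTheory Metric

theorem body_ball_Low {r : ℝ} (hr : 0 < r) :
    Body (closedBall (0 : EuclideanSpace ℝ (Fin 2)) r) :=
  ⟨isCompact_closedBall _ _, convex_closedBall _ _,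
    ⟨0, by rw [interior_closedBall _ hr.ne']; exact mem_ball_self hr⟩⟩

theorem two_le_Low {K : Set (EuclideanSpace ℝ (Fin 2))} {R r : ℝ} (hR : K ⊆ closedBall 0 R)
    (hr : R < r) (hr0 : 0 < r) (b : ℕ → EuclideanSpace ℝ (Fin 2)) (s : Finset ℕ)
    (hs : ∀ x ∈ closedBall (0 : EuclideanSpace ℝ (Fin 2)) r,
      ∃ i ∈ s, x ∈ (fun x => b i + x) '' K) : 2 ≤ s.card := by
  set p : EuclideanSpace ℝ (Fin 2) := EuclideanSpace.single 0 r with hp
  have hn : ‖p‖ = r := by rw [hp]; simp [abs_of_pos hr0]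
  obtain ⟨i, hi, x, hx, ex⟩ := hs p (by rw [mem_closedBall, dist_zero_right, hn])
  obtain ⟨j, hj, y, hy, ey⟩ := hs (-p) (by rw [mem_closedBall, dist_zero_right, norm_neg, hn])
  refine Finset.one_lt_card.2 ⟨i, hi, j, hj, fun hij => ?_⟩
  subst hij
  have ex' : b i + x = p := ex
  have ey' : b i + y = -p := ey
  have h1 : x - y = (2 : ℝ) • p := by
    have : x - y = (b i + x) - (b i + y) := by abel
    rw [this, ex', ey', two_smul, sub_neg_eq_add]
  have h2 : ‖x - y‖ = 2 * r := by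
    rw [h1, norm_smul, hn]; simp
  have h3 := norm_sub_le x y
  have h4 : ‖x‖ ≤ R := by simpa using hR hx
  have h5 : ‖y‖ ≤ R := by simpa using hR hy
  linarith

theorem sLow : SLow := by
  intro K H hK hH hcov
  obtain ⟨R, hR⟩ := hK.1.isBounded.subset_closedBall (0 : EuclideanSpace ℝ (Fin 2))
  refine le_iInf fun b => le_iInf fun hb => ?_
  refine le_liminf_of_le (by isBoundedDefault) ?_
  filter_upwards [eventually_gt_atTop R, eventually_gt_atTop 0] with r hr hr0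
  set I := {i | ((fun x => b i + x) '' K ∩ closedBall 0 r).Nonempty} with hI
  have hcover : ∀ x ∈ closedBall (0 : EuclideanSpace ℝ (Fin 2)) r,
      ∃ i ∈ I, x ∈ (fun x => b i + x) '' K := by
    intro x hx
    have h1 : x ∈ ⋃ i, (fun x => b i + x) '' K := hb ▸ mem_univ x
    obtain ⟨i, hi⟩ := mem_iUnion.1 h1
    exact ⟨i, ⟨x, hi, hx⟩, hi⟩
  have hK0 : volume K ≠ 0 := (Measure.measure_pos_of_nonempty_interior _ hK.2.2).ne'
  have hC0 : volume (closedBall (0 : EuclideanSpace ℝ (Fin 2)) r) ≠ 0 :=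
    (measure_closedBall_pos _ _ hr0).ne'
  have hCt : volume (closedBall (0 : EuclideanSpace ℝ (Fin 2)) r) ≠ ⊤ :=
    measure_closedBall_lt_top.ne
  by_cases hf : I.Finite
  · have hs : ∀ x ∈ closedBall (0 : EuclideanSpace ℝ (Fin 2)) r,
        ∃ i ∈ hf.toFinset, x ∈ (fun x => b i + x) '' K := by
      intro x hx
      obtain ⟨i, hi, h⟩ := hcover x hx
      exact ⟨i, hf.mem_toFinset.2 hi, h⟩
    have h2 := two_le_Low hR hr hr0 b hf.toFinset hs
    have h3 := hcov hf.toFinset.card h2 _ (body_ball_Low hr0)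
      (fun j => b (hf.toFinset.equivFin.symm j)) (by
        intro x hx
        obtain ⟨i, hi, h⟩ := hs x hx
        refine mem_iUnion.2 ⟨hf.toFinset.equivFin ⟨i, hi⟩, ?_⟩
        simpa using h)
    rw [hf.encard_eq_coe_toFinset_card]
    rw [ENNReal.ofReal_mul (Nat.cast_nonneg _), ENNReal.ofReal_natCast] at h3
    have hH0 : ENNReal.ofReal H ≠ 0 := (ENNReal.ofReal_pos.2 hH).ne'
    rw [ENNReal.le_div_iff_mul_le (Or.inl hC0) (Or.inl hCt)]
    calc volume K / ENNReal.ofReal H * volume (closedBall (0 : EuclideanSpace ℝ (Fin 2)) r)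
        ≤ volume K / ENNReal.ofReal H * ((hf.toFinset.card : ENNReal) * ENNReal.ofReal H) := by
          gcongr
      _ = volume K / ENNReal.ofReal H * ENNReal.ofReal H * (hf.toFinset.card : ENNReal) := by
          ring
      _ = volume K * (hf.toFinset.card : ENNReal) := by
          rw [ENNReal.div_mul_cancel hH0 ENNReal.ofReal_ne_top]
      _ = _ := by simp
  · rw [Set.Infinite.encard_eq hf, ENat.toENNReal_top, ENNReal.mul_top hK0, ENNReal.top_div_of_ne_top hCt]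
    exact le_top

end

section

open Filter Set MeasureTheory Metric

theorem unit_Fin {D a : ℝ} (hD : D ≠ 0) (h1 : |a| ≤ |D|) (h2 : |a - D| ≤ |D|) :
    0 ≤ a / D ∧ a / D ≤ 1 := by
  have p : 0 < |D| := abs_pos.2 hD
  have e1 : |a / D| ≤ 1 := by rw [abs_div]; exact (div_le_one p).2 h1
  have e2 : |a / D - 1| ≤ 1 := by
    rw [show a / D - 1 = (a - D) / D by field_simp, abs_div]; exact (div_le_one p).2 h2
  exact ⟨by linarith [(abs_le.1 e2).1], (abs_le.1 e1).2⟩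

theorem para_Fin {K : Set (EuclideanSpace ℝ (Fin 2))} (hv : Convex ℝ K) {H : ℝ} (H0 : 0 < H)
    (hH : IsH K H) (hP : IsP K H) : ∃ x y z, K = convexHull ℝ {x, y, z, y + z - x} := by
  obtain ⟨x, hx, y, hy, z, hz, hw, e⟩ := hP.1
  refine ⟨x, y, z, subset_antisymm (fun m hm => ?_) (convexHull_min (by
    simp only [insert_subset_iff, singleton_subset_iff]; exact ⟨hx, hy, hz, hw⟩) hv)⟩
  have b : ∀ u ∈ K, ∀ v ∈ K, ∀ w ∈ K, par u v w ≤ par x y z := fun u hu v hv w hw =>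
    e ▸ hH.2 ⟨u, hu, v, hv, w, hw, rfl⟩
  obtain ⟨D, hD⟩ : ∃ D, D = (y 0 - x 0) * (z 1 - x 1) - (y 1 - x 1) * (z 0 - x 0) := ⟨_, rfl⟩
  have D0 : D ≠ 0 := by
    rw [e, par, ← hD] at H0
    exact abs_pos.1 H0
  have b1 := b x hx m hm z hz
  have b2 := b y hy m hm _ hw
  have b3 := b x hx y hy m hm
  have b4 := b z hz _ hw m hm
  simp only [par, ← hD, PiLp.add_apply, PiLp.sub_apply] at b1 b2 b3 b4
  obtain ⟨a0, a1⟩ := unit_Fin D0 b1 (by convert b2 using 2; rw [hD]; ring)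
  obtain ⟨c0, c1⟩ := unit_Fin D0 b3 (by convert b4 using 2; rw [hD]; ring)
  have hc := convex_convexHull ℝ ({x, y, z, y + z - x} : Set (EuclideanSpace ℝ (Fin 2)))
  have s := subset_convexHull ℝ ({x, y, z, y + z - x} : Set (EuclideanSpace ℝ (Fin 2)))
  have p1 := hc (s (show x ∈ _ by simp)) (s (show y ∈ _ by simp)) (sub_nonneg.2 a1) a0 (by ring)
  have p2 := hc (s (show z ∈ _ by simp)) (s (show y + z - x ∈ _ by simp)) (sub_nonneg.2 a1) a0
    (by ring)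
  convert hc p1 p2 (sub_nonneg.2 c1) c0 (by ring) using 1
  ext i
  fin_cases i
  · simp only [PiLp.add_apply, PiLp.sub_apply, PiLp.smul_apply, smul_eq_mul, Fin.zero_eta]
    field_simp
    rw [hD]; ring
  · simp only [PiLp.add_apply, PiLp.sub_apply, PiLp.smul_apply, smul_eq_mul, Fin.mk_one]
    field_simp
    rw [hD]; ring

theorem fac_Fin {H P : ℝ} {k : ℕ} (P0 : 0 < P) (h1 : P ≤ H) (h2 : 2 * H ≤ 3 * P) (hk : 2 ≤ k) :
    0 < 1 - 2 * (H - P) ^ 2 / (k * H * P) ∧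
      ENNReal.ofReal (k * H - 2 * (H - P) ^ 2 / P) =
        ENNReal.ofReal (1 - 2 * (H - P) ^ 2 / (k * H * P)) * (k * ENNReal.ofReal H) := by
  have k2 : (2 : ℝ) ≤ k := by exact_mod_cast hk
  have H0 : 0 < H := by linarith
  have c0 : 0 < 1 - 2 * (H - P) ^ 2 / (k * H * P) := by
    rw [sub_pos, div_lt_one (by positivity)]
    have : (H - P) ^ 2 ≤ (P / 2) ^ 2 := pow_le_pow_left₀ (by linarith) (by linarith) 2
    nlinarith [mul_le_mul_of_nonneg_right k2 (mul_pos H0 P0).le, mul_pos P0 P0]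
  refine ⟨c0, ?_⟩
  rw [← ENNReal.ofReal_natCast, ← ENNReal.ofReal_mul (by positivity), ← ENNReal.ofReal_mul c0.le]
  congr 1
  field_simp

theorem main_Fin (hA : SArea) (hL : SLat) (hW : SLow) (hO : SOct) :
    (∀ K : Set (EuclideanSpace ℝ (Fin 2)), Body K → Sym K → ∃ H P : ℝ, IsH K H ∧ IsP K P ∧
      0 < P ∧ P ≤ H ∧ 2 * H ≤ 3 * P ∧ (H = P → ∃ x y z, K = convexHull ℝ {x, y, z, y + z - x}) ∧
      ∀ k : ℕ, 2 ≤ k →
        dens K ≤ ENNReal.ofReal (1 - 2 * (H - P) ^ 2 / (k * H * P)) * fdens k K) ∧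
    ∀ ρ : ℝ, 1 ≤ ρ → ρ ≤ 3 / 2 → ∃ (K : Set (EuclideanSpace ℝ (Fin 2))) (H P : ℝ),
      Body K ∧ Sym K ∧ IsH K H ∧ IsP K P ∧ H = ρ * P ∧
      dens K = ENNReal.ofReal (1 - 2 * (H - P) ^ 2 / (2 * H * P)) * fdens 2 K := by
  have up : ∀ (K : Set (EuclideanSpace ℝ (Fin 2))) (H P : ℝ), Body K → Sym K → IsH K H → 0 < P →
      P ≤ H → 2 * H ≤ 3 * P → ∀ k : ℕ, 2 ≤ k → (∀ C : Set (EuclideanSpace ℝ (Fin 2)), Body C →
        ∀ b : Fin k → EuclideanSpace ℝ (Fin 2), C ⊆ ⋃ i, (fun x => b i + x) '' K →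
          volume C ≤ ENNReal.ofReal (k * H - 2 * (H - P) ^ 2 / P)) →
      dens K ≤ ENNReal.ofReal (1 - 2 * (H - P) ^ 2 / (k * H * P)) * fdens k K := by
    intro K H P hK hs hH P0 h1 h2 k hk h
    obtain ⟨c0, e⟩ := fac_Fin P0 h1 h2 hk
    have H0 : 0 < H := by linarith
    have c1 : ENNReal.ofReal (1 - 2 * (H - P) ^ 2 / (k * H * P)) ≠ 0 := by simpa using c0
    simp only [fdens, ENNReal.mul_iInf_of_ne c1 ENNReal.ofReal_ne_top]
    refine le_iInf₂ fun C hC => le_iInf₂ fun b hb => (hL K H hK hs hH H0).trans ?_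
    have hC0 : volume C ≠ 0 := (Measure.measure_pos_of_nonempty_interior _ hC.2.2).ne'
    rw [← mul_div_assoc, ENNReal.le_div_iff_mul_le (Or.inl hC0) (Or.inl hC.1.measure_lt_top.ne)]
    refine (mul_le_mul_right ((h C hC b hb).trans e.le) _).trans (le_of_eq ?_)
    rw [mul_left_comm, mul_left_comm _ (k : ENNReal),
      ENNReal.div_mul_cancel (by simpa using H0) ENNReal.ofReal_ne_top]
  refine ⟨fun K hK hs => ?_, fun ρ r1 r2 => ?_⟩
  · obtain ⟨H, P, hH, hP, P0, h1, h2, h⟩ := hA K hK hs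
    exact ⟨H, P, hH, hP, P0, h1, h2, fun e => para_Fin hK.2.1 (by linarith) hH (e ▸ hP),
      fun k hk => up K H P hK hs hH P0 h1 h2 k hk (h k hk)⟩
  · obtain ⟨K, C, b, hK, hs, hH, hP, hC, hb, hv⟩ := hO (2 * ρ - 2) (by linarith) (by linarith)
    obtain ⟨H, P, hH', hP', P0, h1, h2, h⟩ := hA K hK hs
    obtain rfl : H = 4 + 2 * (2 * ρ - 2) := hH'.unique hH
    obtain rfl : P = 4 := hP'.unique hP
    refine ⟨K, _, _, hK, hs, hH, hP, by ring, le_antisymm ?_ ?_⟩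
    · exact_mod_cast up K _ _ hK hs hH P0 h1 h2 2 le_rfl (h 2 le_rfl)
    · obtain ⟨c0, e⟩ := fac_Fin P0 h1 h2 (le_refl 2)
      have H0 : 0 < 4 + 2 * (2 * ρ - 2) := by linarith
      refine le_trans ?_ (hW K _ hK H0 fun k hk C hC b hb => (h k hk C hC b hb).trans
        (ENNReal.ofReal_le_ofReal (sub_le_self _ (by positivity))))
      have f : fdens 2 K ≤ ((2 : ℕ) : ENNReal) * volume K / volume C :=
        iInf₂_le_of_le C hC (iInf₂_le b hb)
      rw [show 8 + 4 * (2 * ρ - 2) - 2 * (2 * ρ - 2) ^ 2 = ((2 : ℕ) : ℝ) * (4 + 2 * (2 * ρ - 2)) -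
        2 * (4 + 2 * (2 * ρ - 2) - 4) ^ 2 / 4 by push_cast; ring, e] at hv
      push_cast at c0 hv f
      refine (mul_le_mul_right (f.trans (ENNReal.div_le_div_left hv _)) _).trans (le_of_eq ?_)
      rw [← mul_div_assoc, ENNReal.mul_div_mul_left _ _ (by simpa using c0) ENNReal.ofReal_ne_top,
        ENNReal.mul_div_mul_left _ _ two_ne_zero ENNReal.ofNat_ne_top]

end

end Pool.Agent.MP_cab9bb_co.Sb
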