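import Pool.Agent.Mg.Fcab9bb.Gf9aacd
import Pool.Agent.MP_cab9bb_co.Literal

/- Statements of the steps for the stability form of the covering inequality. -/

set_option autoImplicit false

open Filter Set MeasureTheory Metric

namespace Pool.Agent.MP_cab9bb_co.Sb

/-- A convex body of the Euclidean plane. -/
def Body (K : Set (EuclideanSpace ℝ (Fin 2))) : Prop :=
  IsCompact K ∧ Convex ℝ K ∧ (interior K).Nonempty

/-- Central symmetry. -/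
def Sym (K : Set (EuclideanSpace ℝ (Fin 2))) : Prop :=
  ∃ c : EuclideanSpace ℝ (Fin 2), ∀ x ∈ K, (2 : ℝ) • c - x ∈ K

/-- The area of the parallelogram spanned by `y - x` and `z - x`. -/
def par (x y z : EuclideanSpace ℝ (Fin 2)) : ℝ :=
  |(y 0 - x 0) * (z 1 - x 1) - (y 1 - x 1) * (z 0 - x 0)|

/-- `H` is twice the largest area of a triangle in `K`. -/
def IsH (K : Set (EuclideanSpace ℝ (Fin 2))) (H : ℝ) : Prop :=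
  IsGreatest {a | ∃ x ∈ K, ∃ y ∈ K, ∃ z ∈ K, a = par x y z} H

/-- `P` is the largest area of a parallelogram in `K`. -/
def IsP (K : Set (EuclideanSpace ℝ (Fin 2))) (P : ℝ) : Prop :=
  IsGreatest {a | ∃ x ∈ K, ∃ y ∈ K, ∃ z ∈ K, y + z - x ∈ K ∧ a = par x y z} P

/-- The translative covering density. -/
noncomputable def dens (K : Set (EuclideanSpace ℝ (Fin 2))) : ENNReal :=
  ⨅ b : ℕ → EuclideanSpace ℝ (Fin 2), ⨅ (_ : (⋃ i, (fun x => b i + x) '' K) = univ),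
    liminf (fun r : ℝ => volume K *
      ({i | ((fun x => b i + x) '' K ∩ closedBall 0 r).Nonempty}.encard : ENNReal) /
        volume (closedBall (0 : EuclideanSpace ℝ (Fin 2)) r)) atTop

/-- The finite covering density. -/
noncomputable def fdens (k : ℕ) (K : Set (EuclideanSpace ℝ (Fin 2))) : ENNReal :=
  ⨅ C : Set (EuclideanSpace ℝ (Fin 2)), ⨅ (_ : Body C),
    ⨅ b : Fin k → EuclideanSpace ℝ (Fin 2), ⨅ (_ : C ⊆ ⋃ i, (fun x => b i + x) '' K),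
      (k : ENNReal) * volume K / volume C

/-- A symmetric body whose largest parallelogram is the square, with triangles at most `2 + e`. -/
structure Nm (K : Set (ℝ × ℝ)) (V e : ℝ) : Prop where
  cp : IsCompact K
  cv : Convex ℝ K
  sy : ∀ x ∈ K, -x ∈ K
  k1 : ((1, 1) : ℝ × ℝ) ∈ K
  k2 : ((-1, 1) : ℝ × ℝ) ∈ K
  hq : ∀ a ∈ K, ∀ b ∈ K, cr a b ≤ 2
  ht : ∀ a ∈ K, ∀ b ∈ K, ∀ c ∈ K, cr (b - a) (c - a) ≤ 2 * (2 + e)
  e0 : 0 ≤ e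
  e1 : e ≤ 1
  hV : volume K = ENNReal.ofReal V

theorem Nm.area {K : Set (ℝ × ℝ)} {V e : ℝ} (h : Nm K V e) {w : ℝ} (w0 : 0 ≤ w) (w1 : w ≤ 1) :
    V ≤ 4 + 8 * e - 4 * e * w + w ^ 3 / 3 := by
  have := areaB K h.cp h.cv h.sy h.k1 h.k2 h.hq V (2 + e) h.hV h.ht w w0 w1
  rwa [add_sub_cancel_left] at this

/-- A box with two cut corners. -/
def SCap : Prop :=
  ∀ (T : Set (ℝ × ℝ)) (s0 h0 a b M c p lam : ℝ), 0 ≤ a → 0 ≤ b → 0 ≤ M → 0 ≤ c → 0 ≤ p →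
    0 ≤ lam → lam ≤ 1 →
    (∀ z ∈ T, s0 ≤ z.1 ∧ z.1 ≤ s0 + (a + b) ∧ h0 ≤ z.2 ∧ z.2 ≤ h0 + M ∧
      b * (z.2 - h0) ≤ c + p * (z.1 - s0) ∧ a * (z.2 - h0) ≤ c + p * (s0 + (a + b) - z.1)) →
    volume T ≤
      ENNReal.ofReal (M * (a + b) * (1 - lam) + 2 * c * lam + p * (a + b) * lam ^ 2 / 2)

/-- The two seam inequality with a gain. -/
def SJ2 : Prop :=
  ∀ (K : Set (ℝ × ℝ)) (V e : ℝ), Nm K V e → ∀ A ∈ K, ∀ C ∈ K, ∀ A' ∈ K, ∀ C' ∈ K,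
    V + cr (C - A) (C' - A') + 2 * cr A C + 2 * cr A' C' ≤ 8 * (2 + e) - 2 * e ^ 2

/-- The area in terms of the largest parallelogram. -/
def SAQ : Prop := ∀ (K : Set (ℝ × ℝ)) (V e : ℝ), Nm K V e → V ≤ 13 / 2

/-- Five seams with a gain. -/
def SM5 : Prop := ∀ (K : Set (ℝ × ℝ)) (V e : ℝ), Nm K V e → M5 K (V + 2 * e ^ 2) (2 + e)

/-- Two translates. -/
def STwo : Prop :=
  ∀ (K : Set (ℝ × ℝ)) (V e : ℝ), Nm K V e → ∀ C : Set (ℝ × ℝ), Convex ℝ C → ∀ b1 b2 : ℝ × ℝ,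
    (∀ x ∈ C, x - b1 ∈ K ∨ x - b2 ∈ K) → volume C ≤ ENNReal.ofReal (4 * (2 + e) - 2 * e ^ 2)

/-- Four seams with a repeated cell, with a gain. -/
def SFour : Prop :=
  ∀ (C : Set (ℝ × ℝ)) (s0 s1 : ℝ) (L U σT σB : ℝ → ℝ), IsCompact C → Convex ℝ C →
    Prof C s0 s1 L U → L s1 = U s1 → Slopes s0 s1 L U σT σB →
    (∀ x, s0 < x → x < s1 → L x ≠ U x) → ∀ T η : ℝ, 0 ≤ T → η ≤ T →
    ∀ G : Set (ℝ × ℝ) → Prop,
    (∀ S, G S → Convex ℝ S ∧ (∀ a ∈ S, ∀ b ∈ S, ∀ c ∈ S, cr (b - a) (c - a) ≤ T) ∧ ¬ C ⊆ S) →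
    (∀ S S', G S → G S' → ∀ D : Set (ℝ × ℝ), Convex ℝ D → D ⊆ S ∪ S' →
      volume D ≤ ENNReal.ofReal (2 * T - η)) →
    ∀ S0 S1 S2 S3 : Set (ℝ × ℝ), G S0 → G S1 → G S2 → G S3 → ∀ a b c d : ℝ, s0 ≤ a → a ≤ b →
    b ≤ c → c ≤ d → d ≤ 2 * s1 - s0 →
    (∀ τ, s0 ≤ τ → τ ≤ a → gam s1 L U τ ∈ S0) → (∀ τ, a ≤ τ → τ ≤ b → gam s1 L U τ ∈ S1) →
    (∀ τ, b ≤ τ → τ ≤ c → gam s1 L U τ ∈ S2) → (∀ τ, c ≤ τ → τ ≤ d → gam s1 L U τ ∈ S3) →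
    (∀ τ, d ≤ τ → τ ≤ 2 * s1 - s0 → gam s1 L U τ ∈ S0) → S0 = S2 ∨ S1 = S3 →
    volume C ≤ ENNReal.ofReal (3 * T - η)

/-- The finite inequality with a gain, in normal form. -/
def SFin : Prop :=
  ∀ (K : Set (ℝ × ℝ)) (V e : ℝ), Nm K V e → ∀ k : ℕ, 2 ≤ k → ∀ C : Set (ℝ × ℝ), IsCompact C →
    Convex ℝ C → ∀ b : Fin k → ℝ × ℝ, (∀ x ∈ C, ∃ i, x - b i ∈ K) →
    volume C ≤ ENNReal.ofReal (2 * k * (2 + e) - 2 * e ^ 2)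

/-- The finite inequality with a gain. -/
def SArea : Prop :=
  ∀ K : Set (EuclideanSpace ℝ (Fin 2)), Body K → Sym K → ∃ H P : ℝ, IsH K H ∧ IsP K P ∧ 0 < P ∧
    P ≤ H ∧ 2 * H ≤ 3 * P ∧ ∀ k : ℕ, 2 ≤ k → ∀ C : Set (EuclideanSpace ℝ (Fin 2)), Body C →
      ∀ b : Fin k → EuclideanSpace ℝ (Fin 2), C ⊆ ⋃ i, (fun x => b i + x) '' K →
        volume C ≤ ENNReal.ofReal (k * H - 2 * (H - P) ^ 2 / P)

/-- The lattice covering. -/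
def SLat : Prop :=
  ∀ (K : Set (EuclideanSpace ℝ (Fin 2))) (H : ℝ), Body K → Sym K → IsH K H → 0 < H →
    dens K ≤ volume K / ENNReal.ofReal H

/-- The lower bound for the density. -/
def SLow : Prop :=
  ∀ (K : Set (EuclideanSpace ℝ (Fin 2))) (H : ℝ), Body K → 0 < H →
    (∀ k : ℕ, 2 ≤ k → ∀ C : Set (EuclideanSpace ℝ (Fin 2)), Body C →
      ∀ b : Fin k → EuclideanSpace ℝ (Fin 2), C ⊆ ⋃ i, (fun x => b i + x) '' K →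
        volume C ≤ ENNReal.ofReal (k * H)) →
    volume K / ENNReal.ofReal H ≤ dens K

/-- The extremal octagons. -/
def SOct : Prop :=
  ∀ e : ℝ, 0 ≤ e → e ≤ 1 → ∃ (K C : Set (EuclideanSpace ℝ (Fin 2)))
    (b : Fin 2 → EuclideanSpace ℝ (Fin 2)), Body K ∧ Sym K ∧ IsH K (4 + 2 * e) ∧ IsP K 4 ∧
    Body C ∧ C ⊆ ⋃ i, (fun x => b i + x) '' K ∧
    ENNReal.ofReal (8 + 4 * e - 2 * e ^ 2) ≤ volume C

end Pool.Agent.MP_cab9bb_co.Sb
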